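import Pool.Agent.U283.GF.Main

/-! # The field exists -/

set_option autoImplicit false
set_option linter.unusedSectionVars false

open NumberField Module Complex Polynomial

namespace Pool.Agent.U283.GF

lemma irr5 : Irreducible (X ^ 2 - C 5 : ℚ[X]) := by
  refine X_pow_sub_C_irreducible_of_prime Nat.prime_two fun b hb => not_sq5 ⟨b, ?_⟩
  rw [hb]
  norm_num

instance : Fact (Irreducible (X ^ 2 - C 5 : ℚ[X])) := ⟨irr5⟩

/-- `ℚ[x]/(x² - 5)` -/
abbrev K5 : Type := AdjoinRoot (X ^ 2 - C 5 : ℚ[X])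

noncomputable instance : NumberField K5 := inferInstance

lemma fr5 : finrank ℚ K5 = 2 := by
  rw [(AdjoinRoot.powerBasis irr5.ne_zero).finrank, AdjoinRoot.powerBasis_dim,
    natDegree_X_pow_sub_C]

lemma root5 : (AdjoinRoot.root (X ^ 2 - C 5 : ℚ[X]) : K5) ^ 2 = 5 := by
  have h := AdjoinRoot.aeval_eq (f := (X ^ 2 - C 5 : ℚ[X])) (X ^ 2 - C 5 : ℚ[X])
  rw [AdjoinRoot.mk_self] at h
  simp only [map_sub, map_pow, aeval_X, aeval_C] at h
  have h2 : algebraMap ℚ (AdjoinRoot (X ^ 2 - C 5 : ℚ[X])) 5 = 5 := map_ofNat _ 5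
  exact (sub_eq_zero.1 h).trans h2

end Pool.Agent.U283.GF
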