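import Pool.Agent.U283.GF.Psi

/-! # The Fourier transform, evaluated -/

set_option autoImplicit false
set_option linter.unusedSectionVars false

open NumberField Module Complex

namespace Pool.Agent.U283.GF

open Pool.Agent.Y773 Pool.Agent.Y767

variable {K : Type} [Field K] [NumberField K] [IsTotallyReal K] (D : QF K)

namespace QF

lemma mem_span_nat (m : ℕ) (a b : ℤ) : (a + b * D.om : 𝓞 K) ∈ Ideal.span {(m : 𝓞 K)} ↔
    (m : ℤ) ∣ a ∧ (m : ℤ) ∣ b := by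
  rw [Ideal.mem_span_singleton']
  constructor
  · rintro ⟨z, hz⟩
    obtain ⟨c, d, rfl⟩ := D.coords z
    have h1 : ((c * m : ℤ) : 𝓞 K) + ((d * m : ℤ) : 𝓞 K) * D.om = a + b * D.om := by
      rw [← hz]
      push_cast
      ring
    obtain ⟨h2, h3⟩ := D.uniq h1
    exact ⟨⟨c, by rw [← h2]; ring⟩, ⟨d, by rw [← h3]; ring⟩⟩
  · rintro ⟨⟨c, rfl⟩, ⟨d, rfl⟩⟩
    exact ⟨c + d * D.om, by push_cast; ring⟩

/-- the sum over the residues -/
lemma finsum_quot (m : ℕ) [NeZero m] {f : 𝓞 K → ℂ}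
    (hf : ∀ x y, x - y ∈ Ideal.span {(m : 𝓞 K)} → f x = f y) :
    ∑ᶠ r : 𝓞 K ⧸ Ideal.span {(m : 𝓞 K)}, f (Quotient.out r) =
      sr m fun a => sr m fun b => f (a + b * D.om) := by
  classical
  set Φ : ZMod m × ZMod m → 𝓞 K ⧸ Ideal.span {(m : 𝓞 K)} := fun z =>
    Ideal.Quotient.mk _ (((z.1.val : ℕ) : ℤ) + ((z.2.val : ℕ) : ℤ) * D.om) with hΦ
  have hbij : Function.Bijective Φ := by
    constructor
    · rintro ⟨x, y⟩ ⟨x', y'⟩ h
      simp only [hΦ] at h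
      rw [Ideal.Quotient.eq] at h
      have h1 : (((x.val : ℕ) : ℤ) + ((y.val : ℕ) : ℤ) * D.om : 𝓞 K) -
          (((x'.val : ℕ) : ℤ) + ((y'.val : ℕ) : ℤ) * D.om) =
          (((x.val : ℤ) - (x'.val : ℤ) : ℤ) : 𝓞 K) + (((y.val : ℤ) - (y'.val : ℤ) : ℤ) : 𝓞 K) * D.om := by
        push_cast
        ring
      rw [h1, D.mem_span_nat] at h
      obtain ⟨h2, h3⟩ := h
      rw [← ZMod.intCast_eq_intCast_iff_dvd_sub] at h2 h3
      push_cast at h2 h3
      rw [ZMod.natCast_zmod_val, ZMod.natCast_zmod_val] at h2 h3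
      rw [h2, h3]
    · intro r
      obtain ⟨z, rfl⟩ := Ideal.Quotient.mk_surjective r
      obtain ⟨a, b, rfl⟩ := D.coords z
      refine ⟨((a : ZMod m), (b : ZMod m)), ?_⟩
      simp only [hΦ]
      rw [Ideal.Quotient.eq]
      have h1 : ((((a : ZMod m).val : ℕ) : ℤ) + (((b : ZMod m).val : ℕ) : ℤ) * D.om : 𝓞 K) -
          (a + b * D.om) =
          ((((a : ZMod m).val : ℤ) - a : ℤ) : 𝓞 K) + ((((b : ZMod m).val : ℤ) - b : ℤ) : 𝓞 K) *
            D.om := by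
        push_cast
        ring
      rw [h1, D.mem_span_nat]
      rw [ZMod.val_intCast, ZMod.val_intCast]
      exact ⟨Int.modEq_iff_dvd.1 (Int.mod_modEq a m).symm, Int.modEq_iff_dvd.1 (Int.mod_modEq b m).symm⟩
  rw [← finsum_eq_of_bijective (f := fun z : ZMod m × ZMod m =>
    f ((((z.1.val : ℕ) : ℤ) : 𝓞 K) + (((z.2.val : ℕ) : ℤ) : 𝓞 K) * D.om)) Φ hbij]
  · rw [finsum_eq_sum_of_fintype, Fintype.sum_prod_type, sr_eq]
    refine Finset.sum_congr rfl fun a _ => ?_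
    rw [sr_eq]
  · intro z
    refine hf _ _ ?_
    rw [← Ideal.Quotient.eq]
    exact (Quotient.out_eq (Φ z)).symm

/-- the parity of a character, as exponent -/
noncomputable def par {q : ℕ} (χ : DirichletCharacter ℂ q) : ℕ := if χ (-1) = 1 then 0 else 1

lemma par_le {q : ℕ} (χ : DirichletCharacter ℂ q) : par χ ≤ 1 := by
  unfold par
  split_ifs <;> norm_num

lemma chi_neg_one {q : ℕ} {χ : DirichletCharacter ℂ q} :
    χ (-1) = (-1 : ℂ) ^ par χ := by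
  unfold par
  split_ifs with h
  · rw [h, pow_zero]
  · rw [pow_one]
    have h3 : χ (-1) * χ (-1) = 1 := by
      rw [← map_mul]
      norm_num
    rcases mul_self_eq_one_iff.1 h3 with h4 | h4
    · exact absurd h4 h
    · exact h4

/-- `χ(|n|) sgn(n)^e = χ(n)` -/
lemma chi_abs {q : ℕ} (χ : DirichletCharacter ℂ q) {n : ℤ} (hn : n ≠ 0) :
    χ ((n.natAbs : ℕ) : ZMod q) * ((n.sign : ℤ) : ℂ) ^ par χ = χ ((n : ℤ) : ZMod q) := by
  obtain ⟨m, rfl | rfl⟩ := Int.eq_nat_or_neg n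
  · have hm : (0 : ℤ) < m := by omega
    rw [Int.natAbs_natCast, Int.sign_eq_one_of_pos hm]
    simp
  · have hm : -(m : ℤ) < 0 := by omega
    rw [Int.natAbs_neg, Int.natAbs_natCast, Int.sign_eq_neg_one_of_neg hm]
    have h1 : ((-(m : ℤ) : ℤ) : ZMod q) = (-1) * ((m : ℕ) : ZMod q) := by
      push_cast
      ring
    rw [h1, map_mul, chi_neg_one]
    push_cast
    ring

include D in
/-- the sign of the norm -/
lemma sg_eq (e : ℕ) {z : 𝓞 K} (hz : z ≠ 0) : sg (fun _ : InfinitePlace K => e) (z : K) =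
    (((Algebra.norm ℤ z).sign : ℤ) : ℂ) ^ e := by
  unfold sg
  rw [D.prod_eq, ← mul_pow]
  congr 1
  have h1 := norm_eq_prod (K := K) (z : K)
  rw [D.prod_eq, ← Algebra.coe_norm_int] at h1
  have h2 : (SignType.sign (Algebra.norm ℤ z) : SignType) =
      SignType.sign (rl D.w1 (z : K)) * SignType.sign (rl D.w2 (z : K)) := by
    rw [← sign_mul, ← h1]
    rcases lt_trichotomy (Algebra.norm ℤ z) 0 with h | h | h
    · rw [sign_neg h, sign_neg]
      exact_mod_cast h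
    · rw [h]
      simp
    · rw [sign_pos h, sign_pos]
      exact_mod_cast h
  rw [Int.sign_eq_sign, h2]
  push_cast
  rfl

/-- the values of the twisted function -/
lemma tw_val (k : ℕ) {q : ℕ} (χ : DirichletCharacter ℂ q) (z : 𝓞 K) (hz : z ≠ 0) :
    tw (D.psi k) χ (Ideal.span {z}) * kk (fun _ => par χ) (D.nu (vk k)) (z : K) =
      D.cr z * χ ((Algebra.norm ℤ z : ℤ) : ZMod q) := by
  have hN : Algebra.norm ℤ z ≠ 0 := (Algebra.norm_ne_zero_iff).2 hz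
  have h1 : tw (D.psi k) χ (Ideal.span {z}) = D.psi k (Ideal.span {z}) *
      χ ((Ideal.absNorm (Ideal.span {z}) : ℕ) : ZMod q) := rfl
  rw [h1, D.psi_span, Ideal.absNorm_span_singleton, ← chi_abs χ hN]
  unfold kk
  rw [D.sg_eq _ hz]
  have h2 := ax_neg_mul (D.nu (vk k)) (z : K)
  linear_combination (D.cr z * χ (((Algebra.norm ℤ z).natAbs : ℕ) : ZMod q) *
    (((Algebra.norm ℤ z).sign : ℤ) : ℂ) ^ par χ) * h2

lemma cr_zero : D.cr 0 = 0 := by
  have := D.cr_int 0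
  rw [Int.cast_zero] at this
  rw [this, c5_eq_zero_iff]
  norm_num

lemma Pk_top (k : ℕ) {q : ℕ} (χ : DirichletCharacter ℂ q) (z : 𝓞 K) :
    Pk (tw (D.psi k) χ) (kk (fun _ => par χ) (D.nu (vk k))) ⊤ z =
      D.cr z * χ ((Algebra.norm ℤ z : ℤ) : ZMod q) := by
  have htop : (⊤ : Ideal (𝓞 K)) ≠ ⊥ := top_ne_bot
  rw [Pk_of_eq htop (𝔞 := Ideal.span {z}) (by rw [Ideal.mul_top])]
  by_cases hz : z = 0
  · subst hz
    have : (Ideal.span {(0 : 𝓞 K)}) = 0 := by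
      rw [Ideal.zero_eq_bot, Ideal.span_singleton_eq_bot]
    rw [this, map_zero, D.cr_zero, zero_mul, zero_mul]
  · exact D.tw_val k χ z hz

theorem FT_eval (k : ℕ) {q : ℕ} [NeZero q] (χ : DirichletCharacter ℂ q) :
    FT 5 (5 * q) (Pk (tw (D.psi k) χ) (kk (fun _ => par χ) (D.nu (vk k))) ⊤) 5 = St χ := by
  have hq0 : 0 < q := Nat.pos_of_ne_zero (NeZero.ne q)
  have : NeZero (5 * q) := ⟨by omega⟩
  have h5q : 0 < 5 * q := by omega
  unfold FT
  have htr5 : ∀ r : 𝓞 K, Algebra.trace ℤ (𝓞 K) (5 * r) = 5 * Algebra.trace ℤ (𝓞 K) r := by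
    intro r
    have h5 : (5 : 𝓞 K) * r = (5 : ℤ) • r := by rw [zsmul_eq_mul]; push_cast; rfl
    rw [h5, map_smul, smul_eq_mul]
  rw [if_pos (fun r => by
    rw [htr5]
    exact ⟨_, by push_cast; rfl⟩)]
  have h1 : ∀ z : 𝓞 K, Pk (tw (D.psi k) χ) (kk (fun _ => par χ) (D.nu (vk k))) ⊤ z *
      Complex.exp (2 * Real.pi * Complex.I * ((Algebra.trace ℤ (𝓞 K) (5 * z) : ℤ) : ℂ) /
        ((5 * q * 5 : ℕ) : ℂ)) = D.cr z * χ ((Algebra.norm ℤ z : ℤ) : ZMod q) *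
        ec (5 * q) (Algebra.trace ℤ (𝓞 K) z) := by
    intro z
    rw [D.Pk_top]
    congr 1
    unfold ec
    congr 1
    rw [htr5]
    have : (q : ℂ) ≠ 0 := by exact_mod_cast hq0.ne'
    push_cast
    field_simp
  simp_rw [h1]
  rw [D.finsum_quot (5 * q) (f := fun z => D.cr z * χ ((Algebra.norm ℤ z : ℤ) : ZMod q) *
        ec (5 * q) (Algebra.trace ℤ (𝓞 K) z))]
  · unfold St
    refine sr_congr fun a => sr_congr fun b => ?_
    rw [D.cr_co, D.norm_eq, D.trace_eq]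
  · intro x y hxy
    obtain ⟨a, b, rfl⟩ := D.coords x
    obtain ⟨c, d, rfl⟩ := D.coords y
    have h2 : (a + b * D.om : 𝓞 K) - (c + d * D.om) = ((a - c : ℤ) : 𝓞 K) + ((b - d : ℤ) : 𝓞 K) * D.om := by
      push_cast; ring
    rw [h2, D.mem_span_nat] at hxy
    obtain ⟨⟨u, hu⟩, ⟨v, hv⟩⟩ := hxy
    push_cast at hu hv
    simp only [D.cr_co, D.norm_eq, D.trace_eq]
    have e1 : c5 (a + 3 * b) = c5 (c + 3 * d) := c5_per ⟨q * u + 3 * q * v, by
      linear_combination hu + 3 * hv⟩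
    have e2 : ((nf a b : ℤ) : ZMod q) = ((nf c d : ℤ) : ZMod q) := by
      rw [ZMod.intCast_eq_intCast_iff_dvd_sub]
      exact nf_pe ⟨-(5 * u), by linear_combination -hu⟩ ⟨-(5 * v), by linear_combination -hv⟩
    have e3 : ec (5 * q) (2 * a + b) = ec (5 * q) (2 * c + d) := ec_per h5q
      ⟨2 * u + v, by push_cast; linear_combination 2 * hu + hv⟩
    rw [e1, e2, e3]

end QF

end Pool.Agent.U283.GF
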