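import Pool.Agent.U283.GF.Sn2

set_option autoImplicit false

open Finset Complex

namespace Pool.Agent.U283.GF

section G2

variable {q : ℕ} [NeZero q]

lemma gs_ne_zero {χ : DirichletCharacter ℂ q} (hχ : χ.IsPrimitive) :
    gaussSum χ (ZMod.stdAddChar (N := q)) ≠ 0 := by
  intro h
  have h1 : ZMod.dft (χ : ZMod q → ℂ) = 0 := by
    funext k
    rw [hχ.fourierTransform_eq_inv_mul_gaussSum, h, mul_zero]
    rfl
  have h2 : (χ : ZMod q → ℂ) = 0 := (LinearEquiv.map_eq_zero_iff _).1 h1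
  have h3 := congrFun h2 1
  rw [map_one] at h3
  exact one_ne_zero h3

lemma gs_val {χ : DirichletCharacter ℂ q} (hχ : χ.IsPrimitive) (h2 : χ ^ 2 = 1) (n : ZMod q) :
    χ n * gaussSum χ (ZMod.stdAddChar (N := q)) = ∑ x, χ x * ZMod.stdAddChar (x * n) := by
  have := gaussSum_mulShift_of_isPrimitive (ZMod.stdAddChar (N := q)) hχ n
  have hinv : χ⁻¹ = χ := inv_eq_of_mul_eq_one_left (by rw [← pow_two]; exact h2)
  rw [hinv] at this
  rw [← this]
  unfold gaussSum
  refine sum_congr rfl fun x _ => ?_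
  rw [AddChar.mulShift_apply, mul_comm n]

lemma sum_units (χ : DirichletCharacter ℂ q) (F : ZMod q → ℂ) :
    ∑ x, χ x * F x = ∑ u : (ZMod q)ˣ, χ (u : ZMod q) * F (u : ZMod q) := by
  symm
  refine Finset.sum_of_injOn (fun u : (ZMod q)ˣ => (u : ZMod q)) (Units.val_injective.injOn)
    (by simp) ?_ (fun _ _ => rfl)
  intro x _ hx
  change χ x * F x = 0
  rw [χ.map_nonunit, zero_mul]
  rintro ⟨u, hu⟩
  exact hx ⟨u, by simp, hu⟩

lemma chi_inv {χ : DirichletCharacter ℂ q} (h2 : χ ^ 2 = 1) (u : (ZMod q)ˣ) :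
    χ ((u⁻¹ : (ZMod q)ˣ) : ZMod q) = χ (u : ZMod q) := by
  have h1 : χ (u : ZMod q) * χ ((u⁻¹ : (ZMod q)ˣ) : ZMod q) = 1 := by
    rw [← map_mul, Units.mul_inv, map_one]
  have h3 : χ (u : ZMod q) * χ (u : ZMod q) = 1 := by
    have := congrArg (fun ψ : DirichletCharacter ℂ q => ψ (u : ZMod q)) h2
    simp only [pow_two, MulChar.mul_apply] at this
    rw [this]
    exact MulChar.one_apply_coe u
  have h4 : χ (u : ZMod q) ≠ 0 := fun h => by rw [h, zero_mul] at h3; exact zero_ne_one h3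
  exact mul_left_cancel₀ h4 (h1.trans h3.symm)

/-- **the sum of `χ(N(a, b)) e((2a + b)/q)`** -/
theorem G2_eq {χ : DirichletCharacter ℂ q} (hχ : χ.IsPrimitive) (h2 : χ ^ 2 = 1)
    (hq : Nat.Coprime q 5) :
    ∑ a : ZMod q, ∑ b : ZMod q, χ (a ^ 2 + a * b - b ^ 2) * ZMod.stdAddChar (2 * a + b) =
      ((jacobiSym (q : ℤ) 5 : ℤ) : ℂ) * q * χ (-1) := by
  set g := gaussSum χ (ZMod.stdAddChar (N := q)) with hg
  have hg0 : g ≠ 0 := gs_ne_zero hχ
  have hkey : ∀ u : (ZMod q)ˣ, ∑ a : ZMod q, ∑ b : ZMod q,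
      (ZMod.stdAddChar ((u : ZMod q) * (a ^ 2 + a * b - b ^ 2) + (2 * a + b)) : ℂ) =
      ((jacobiSym (q : ℤ) 5 : ℤ) : ℂ) * q * ZMod.stdAddChar (-((u⁻¹ : (ZMod q)ˣ) : ZMod q)) := by
    intro u
    have hui : (u : ZMod q) * ((u⁻¹ : (ZMod q)ˣ) : ZMod q) = 1 := Units.mul_inv u
    have h3 : ∑ a : ZMod q, ∑ b : ZMod q,
      (ZMod.stdAddChar ((u : ZMod q) * (a ^ 2 + a * b - b ^ 2) + (2 * a + b)) : ℂ) =
      ∑ a : ZMod q, ∑ b : ZMod q,
      (ZMod.stdAddChar ((u : ZMod q) * (a ^ 2 + a * b - b ^ 2)) : ℂ) *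
        ZMod.stdAddChar (-((u⁻¹ : (ZMod q)ˣ) : ZMod q)) := by
      refine Fintype.sum_equiv (Equiv.addRight ((u⁻¹ : (ZMod q)ˣ) : ZMod q)) _ _ fun a => ?_
      refine sum_congr rfl fun b _ => ?_
      rw [← AddChar.map_add_eq_mul]
      congr 1
      simp only [Equiv.coe_addRight]
      linear_combination (-2 * a - ((u⁻¹ : (ZMod q)ˣ) : ZMod q) - b) * hui
    rw [h3]
    simp_rw [← sum_mul]
    congr 1
    have h4 := Sn_eq_zmod q ((u : ZMod q).val : ℤ)
    have h5 : ((((u : ZMod q).val : ℕ) : ℤ) : ZMod q) = u := by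
      push_cast
      exact ZMod.natCast_zmod_val _
    rw [h5] at h4
    rw [← h4]
    refine Sn_eq q hq _ ?_
    rw [Nat.isCoprime_iff_coprime]
    exact ZMod.val_coe_unit_coprime u
  have h3 : g * ∑ a : ZMod q, ∑ b : ZMod q, χ (a ^ 2 + a * b - b ^ 2) * ZMod.stdAddChar (2 * a + b) =
      g * (((jacobiSym (q : ℤ) 5 : ℤ) : ℂ) * q * χ (-1)) := by
    calc g * ∑ a : ZMod q, ∑ b : ZMod q, χ (a ^ 2 + a * b - b ^ 2) * ZMod.stdAddChar (2 * a + b)
        = ∑ a : ZMod q, ∑ b : ZMod q, (χ (a ^ 2 + a * b - b ^ 2) * g) * ZMod.stdAddChar (2 * a + b) := by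
          rw [mul_sum]
          refine sum_congr rfl fun a _ => ?_
          rw [mul_sum]
          exact sum_congr rfl fun b _ => by ring
      _ = ∑ a : ZMod q, ∑ b : ZMod q, ∑ x : ZMod q, χ x *
            (ZMod.stdAddChar (x * (a ^ 2 + a * b - b ^ 2) + (2 * a + b)) : ℂ) := by
          refine sum_congr rfl fun a _ => sum_congr rfl fun b _ => ?_
          rw [hg, gs_val hχ h2, sum_mul]
          refine sum_congr rfl fun x _ => ?_
          rw [mul_assoc, ← AddChar.map_add_eq_mul]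
      _ = ∑ x : ZMod q, χ x * ∑ a : ZMod q, ∑ b : ZMod q,
            (ZMod.stdAddChar (x * (a ^ 2 + a * b - b ^ 2) + (2 * a + b)) : ℂ) := by
          simp_rw [mul_sum]
          rw [sum_comm]
          rw [sum_comm]
          have : ∀ a : ZMod q, ∑ b : ZMod q, ∑ x : ZMod q, χ x *
            (ZMod.stdAddChar (x * (a ^ 2 + a * b - b ^ 2) + (2 * a + b)) : ℂ) =
            ∑ x : ZMod q, ∑ b : ZMod q, χ x *
            (ZMod.stdAddChar (x * (a ^ 2 + a * b - b ^ 2) + (2 * a + b)) : ℂ) :=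
            fun a => sum_comm
          simp_rw [this]
          rw [sum_comm]
      _ = ∑ u : (ZMod q)ˣ, χ (u : ZMod q) * (((jacobiSym (q : ℤ) 5 : ℤ) : ℂ) * q *
            ZMod.stdAddChar (-((u⁻¹ : (ZMod q)ˣ) : ZMod q))) := by
          rw [sum_units]
          exact sum_congr rfl fun u _ => by rw [hkey u]
      _ = ∑ u : (ZMod q)ˣ, χ (u : ZMod q) * (((jacobiSym (q : ℤ) 5 : ℤ) : ℂ) * q *
            ZMod.stdAddChar (-(u : ZMod q))) := by
          refine Fintype.sum_equiv (Equiv.inv _) _ _ fun u => ?_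
          rw [Equiv.inv_apply, chi_inv h2]
      _ = ((jacobiSym (q : ℤ) 5 : ℤ) : ℂ) * q * ∑ x : ZMod q, χ x * ZMod.stdAddChar (x * (-1)) := by
          rw [← sum_units χ (fun x => ((jacobiSym (q : ℤ) 5 : ℤ) : ℂ) * q * ZMod.stdAddChar (-x)),
            mul_sum]
          refine sum_congr rfl fun x _ => ?_
          rw [mul_neg_one]
          ring
      _ = _ := by
          rw [← gs_val hχ h2]
          ring
  exact mul_left_cancel₀ hg0 h3

end G2

lemma sr_mul_right (q : ℕ) (f : ℤ → ℂ) (c : ℂ) : sr q (fun x => f x * c) = sr q f * c := by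
  unfold sr
  rw [sum_mul]

/-- the character modulo `5` -/
noncomputable def c5 (x : ℤ) : ℂ := ((jacobiSym x 5 : ℤ) : ℂ)

lemma c5_mul (x y : ℤ) : c5 (x * y) = c5 x * c5 y := by
  unfold c5
  rw [jacobiSym.mul_left]
  push_cast
  ring

lemma c5_per {x y : ℤ} (h : (5 : ℤ) ∣ x - y) : c5 x = c5 y := by
  unfold c5
  have : x % (5 : ℕ) = y % (5 : ℕ) := by push_cast; omega
  rw [jacobiSym.mod_left x, this, ← jacobiSym.mod_left y]

/-- the Gauss sum modulo `5`, times `5` -/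
noncomputable def B5 : ℂ := sr 5 fun a => sr 5 fun b => c5 (a + 3 * b) * ec 5 (2 * a + b)

lemma B5_eq : B5 = 5 * sr 5 fun c => c5 c * ec 5 (2 * c) := by
  unfold B5
  rw [sr_comm]
  have h1 : ∀ b : ℤ, sr 5 (fun a => c5 (a + 3 * b) * ec 5 (2 * a + b)) =
      sr 5 (fun c => c5 c * ec 5 (2 * c)) := by
    intro b
    have hP : Pe 5 (fun c => c5 c * ec 5 (2 * c)) := by
      intro x y h
      have e1 : c5 x = c5 y := c5_per (by exact_mod_cast h)
      have e2 : ec 5 (2 * x) = ec 5 (2 * y) := ec_per (by norm_num) (by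
        rw [← mul_sub]
        exact h.mul_left 2)
      simp only [e1, e2]
    rw [← sr_shift hP (3 * b)]
    refine sr_congr fun a => ?_
    congr 1
    refine ec_per (by norm_num) ⟨-b, by push_cast; ring⟩
  simp_rw [h1]
  unfold sr
  simp

lemma ec_add_neg (q : ℕ) (x : ℤ) : ec q x + ec q (-x) = ((2 * Real.cos (2 * Real.pi * x / q) : ℝ) : ℂ) := by
  unfold ec
  push_cast
  rw [Complex.two_cos]
  congr 1
  · congr 1
    ring
  · congr 1
    ring

theorem B5_neg : ∃ b : ℝ, 0 < b ∧ B5 = ((-b : ℝ) : ℂ) := by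
  have j1 : c5 0 = 0 := by unfold c5; norm_num
  have j2 : c5 1 = 1 := by unfold c5; norm_num
  have j3 : c5 2 = -1 := by unfold c5; norm_num
  have j4 : c5 3 = -1 := by unfold c5; norm_num
  have j5 : c5 4 = 1 := by unfold c5; norm_num
  have h1 : sr 5 (fun c => c5 c * ec 5 (2 * c)) =
      (ec 5 2 + ec 5 (-2)) - (ec 5 1 + ec 5 (-1)) := by
    unfold sr
    simp only [sum_range_succ, range_zero, sum_empty, zero_add, Nat.cast_zero, Nat.cast_one,
      Nat.cast_ofNat]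
    rw [j1, j2, j3, j4, j5]
    have e1 : ec 5 (2 * 2) = ec 5 (-1) := ec_per (by norm_num) (by norm_num)
    have e2 : ec 5 (2 * 3) = ec 5 1 := ec_per (by norm_num) (by norm_num)
    have e3 : ec 5 (2 * 4) = ec 5 (-2) := ec_per (by norm_num) (by norm_num)
    rw [e1, e2, e3]
    ring
  rw [B5_eq, h1, ec_add_neg, ec_add_neg]
  refine ⟨-(5 * (2 * Real.cos (2 * Real.pi * (2 : ℤ) / (5 : ℕ)) -
    2 * Real.cos (2 * Real.pi * (1 : ℤ) / (5 : ℕ)))), ?_, ?_⟩
  · have hpi := Real.pi_pos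
    have h2 : Real.cos (2 * Real.pi * (2 : ℤ) / (5 : ℕ)) < 0 := by
      refine Real.cos_neg_of_pi_div_two_lt_of_lt ?_ ?_
      · push_cast
        linarith
      · push_cast
        linarith
    have h3 : 0 < Real.cos (2 * Real.pi * (1 : ℤ) / (5 : ℕ)) := by
      refine Real.cos_pos_of_mem_Ioo ⟨?_, ?_⟩
      · push_cast
        linarith
      · push_cast
        linarith
    linarith
  · push_cast
    ring

/-- the total sum -/
noncomputable def St {q : ℕ} (χ : DirichletCharacter ℂ q) : ℂ :=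
  sr (5 * q) fun a => sr (5 * q) fun b =>
    c5 (a + 3 * b) * χ ((nf a b : ℤ) : ZMod q) * ec (5 * q) (2 * a + b)

lemma c5_sq {q : ℕ} (hq : Nat.Coprime q 5) : c5 q * c5 q = 1 := by
  unfold c5
  have := jac_sq hq
  rw [← Int.cast_mul, ← pow_two, this]
  norm_num

theorem St_eq {q : ℕ} [NeZero q] {χ : DirichletCharacter ℂ q} (hχ : χ.IsPrimitive)
    (h2 : χ ^ 2 = 1) (hq : Nat.Coprime q 5) : St χ = q * χ (-1) * B5 := by
  have hq0 : 0 < q := Nat.pos_of_ne_zero (NeZero.ne q)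
  have h5q : 0 < 5 * q := by omega
  have hu : IsUnit ((5 : ℕ) : ZMod q) := (ZMod.isUnit_iff_coprime 5 q).2 hq.symm
  have h25 : χ ((25 : ℕ) : ZMod q) = 1 := by
    obtain ⟨u, hu⟩ := hu
    have h3 : χ (u : ZMod q) * χ (u : ZMod q) = 1 := by
      have := congrArg (fun ψ : DirichletCharacter ℂ q => ψ (u : ZMod q)) h2
      simp only [pow_two, MulChar.mul_apply] at this
      rw [this]
      exact MulChar.one_apply_coe u
    rw [hu, ← map_mul] at h3
    have : ((25 : ℕ) : ZMod q) = ((5 : ℕ) : ZMod q) * ((5 : ℕ) : ZMod q) := by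
      push_cast; norm_num
    rw [this, h3]
  have hF : ∀ a : ℤ, Pe (5 * q) (fun b => c5 (a + 3 * b) * χ ((nf a b : ℤ) : ZMod q) *
      ec (5 * q) (2 * a + b)) := by
    intro a x y h
    have e1 : c5 (a + 3 * x) = c5 (a + 3 * y) := c5_per (by
      obtain ⟨k, hk⟩ := h
      push_cast at hk
      exact ⟨3 * q * k, by linear_combination 3 * hk⟩)
    have e2 : ((nf a x : ℤ) : ZMod q) = ((nf a y : ℤ) : ZMod q) := by
      rw [ZMod.intCast_eq_intCast_iff_dvd_sub]
      refine nf_pe (by simp) ?_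
      obtain ⟨k, hk⟩ := h
      push_cast at hk
      exact ⟨-(5 * k), by linear_combination -hk⟩
    have e3 : ec (5 * q) (2 * a + x) = ec (5 * q) (2 * a + y) := ec_per h5q (by
      have : 2 * a + x - (2 * a + y) = x - y := by ring
      rwa [this])
    simp only [e1, e2, e3]
  have hF' : ∀ b : ℤ, Pe (5 * q) (fun a => c5 (a + 3 * b) * χ ((nf a b : ℤ) : ZMod q) *
      ec (5 * q) (2 * a + b)) := by
    intro b x y h
    have e1 : c5 (x + 3 * b) = c5 (y + 3 * b) := c5_per (by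
      obtain ⟨k, hk⟩ := h
      push_cast at hk
      exact ⟨q * k, by linear_combination hk⟩)
    have e2 : ((nf x b : ℤ) : ZMod q) = ((nf y b : ℤ) : ZMod q) := by
      rw [ZMod.intCast_eq_intCast_iff_dvd_sub]
      refine nf_pe ?_ (by simp)
      obtain ⟨k, hk⟩ := h
      push_cast at hk
      exact ⟨-(5 * k), by linear_combination -hk⟩
    have e3 : ec (5 * q) (2 * x + b) = ec (5 * q) (2 * y + b) := ec_per h5q (by
      obtain ⟨k, hk⟩ := h
      exact ⟨2 * k, by linear_combination 2 * hk⟩)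
    simp only [e1, e2, e3]
  unfold St
  rw [sr_crt hq.symm (Pe.sr fun y => hF' y)]
  have e1 : ∀ x y : ℤ, sr (5 * q) (fun b => c5 (q * x + (5 : ℕ) * y + 3 * b) *
      χ ((nf (q * x + (5 : ℕ) * y) b : ℤ) : ZMod q) * ec (5 * q) (2 * (q * x + (5 : ℕ) * y) + b)) =
      sr 5 (fun x2 => sr q (fun y2 => (c5 q * (c5 (x + 3 * x2) * ec 5 (2 * x + x2))) *
        (χ ((nf y y2 : ℤ) : ZMod q) * ec q (2 * y + y2)))) := by
    intro x y
    rw [sr_crt hq.symm (hF _)]
    refine sr_congr fun x2 => sr_congr fun y2 => ?_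
    have a1 : c5 (q * x + (5 : ℕ) * y + 3 * (q * x2 + (5 : ℕ) * y2)) = c5 q * c5 (x + 3 * x2) := by
      rw [← c5_mul]
      exact c5_per ⟨y + 3 * y2, by push_cast; ring⟩
    have a2 : χ ((nf (q * x + (5 : ℕ) * y) (q * x2 + (5 : ℕ) * y2) : ℤ) : ZMod q) =
        χ ((nf y y2 : ℤ) : ZMod q) := by
      have : ((nf (q * x + (5 : ℕ) * y) (q * x2 + (5 : ℕ) * y2) : ℤ) : ZMod q) =
          ((25 : ℕ) : ZMod q) * ((nf y y2 : ℤ) : ZMod q) := by
        unfold nf
        push_cast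
        simp only [CharP.cast_eq_zero, zero_mul, zero_add]
        ring
      rw [this, map_mul, h25, one_mul]
    have a3 : ec (5 * q) (2 * (q * x + (5 : ℕ) * y) + (q * x2 + (5 : ℕ) * y2)) =
        ec 5 (2 * x + x2) * ec q (2 * y + y2) := by
      have : (2 * (q * x + (5 : ℕ) * y) + (q * x2 + (5 : ℕ) * y2) : ℤ) =
          q * (2 * x + x2) + (5 : ℕ) * (2 * y + y2) := by push_cast; ring
      rw [this, ec_add]
      congr 1
      · rw [mul_comm 5 q, ec_mul_mul hq0]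
      · rw [ec_mul_mul (by norm_num)]
    rw [a1, a2, a3]
    ring
  simp_rw [e1, sr_mul_left]
  have e2 : ∀ x y : ℤ, sr 5 (fun x2 => (c5 q * (c5 (x + 3 * x2) * ec 5 (2 * x + x2))) *
      sr q (fun y2 => χ ((nf y y2 : ℤ) : ZMod q) * ec q (2 * y + y2))) =
      (c5 q * sr 5 (fun x2 => c5 (x + 3 * x2) * ec 5 (2 * x + x2))) *
      sr q (fun y2 => χ ((nf y y2 : ℤ) : ZMod q) * ec q (2 * y + y2)) := by
    intro x y
    rw [sr_mul_right, sr_mul_left]
  simp_rw [e2, sr_mul_left]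
  have e3 : sr 5 (fun x => (c5 q * sr 5 (fun x2 => c5 (x + 3 * x2) * ec 5 (2 * x + x2))) *
      sr q (fun y => sr q (fun y2 => χ ((nf y y2 : ℤ) : ZMod q) * ec q (2 * y + y2)))) =
      (c5 q * B5) * sr q (fun y => sr q (fun y2 => χ ((nf y y2 : ℤ) : ZMod q) *
        ec q (2 * y + y2))) := by
    unfold B5
    rw [sr_mul_right, sr_mul_left]
  rw [e3]
  have e4 : sr q (fun y => sr q (fun y2 => χ ((nf y y2 : ℤ) : ZMod q) * ec q (2 * y + y2))) =
      ((jacobiSym (q : ℤ) 5 : ℤ) : ℂ) * q * χ (-1) := by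
    rw [← G2_eq hχ h2 hq, sr_eq]
    refine sum_congr rfl fun a _ => ?_
    rw [sr_eq]
    refine sum_congr rfl fun b _ => ?_
    rw [← ec_stdAddChar]
    unfold nf
    push_cast
    rw [ZMod.natCast_zmod_val, ZMod.natCast_zmod_val]
  rw [e4]
  have e5 : ((jacobiSym (q : ℤ) 5 : ℤ) : ℂ) = c5 q := rfl
  rw [e5]
  linear_combination (B5 * q * χ (-1)) * c5_sq hq

end Pool.Agent.U283.GF
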