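import Pool.Agent.U283.GF.Fev

/-! # Conjugation -/

set_option autoImplicit false
set_option linter.unusedSectionVars false

open NumberField Module Complex

namespace Pool.Agent.U283.GF

open Pool.Agent.Y773 Pool.Agent.Y767

variable {K : Type} [Field K] [NumberField K] [IsTotallyReal K] (D : QF K)

namespace QF

/-- the conjugate, as a function -/
noncomputable def cjf (z : 𝓞 K) : 𝓞 K := ((D.ca z + D.cb z : ℤ) : 𝓞 K) + ((-D.cb z : ℤ) : 𝓞 K) * D.om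

lemma cjf_co (a b : ℤ) : D.cjf (a + b * D.om) = ((a + b : ℤ) : 𝓞 K) + ((-b : ℤ) : 𝓞 K) * D.om := by
  unfold cjf
  rw [D.ca_eq, D.cb_eq]

lemma cjf_cjf (z : 𝓞 K) : D.cjf (D.cjf z) = z := by
  obtain ⟨a, b, rfl⟩ := D.coords z
  rw [D.cjf_co, D.cjf_co]
  push_cast
  ring

/-- the Galois conjugation -/
noncomputable def cj : 𝓞 K ≃+* 𝓞 K where
  toFun := D.cjf
  invFun := D.cjf
  left_inv := D.cjf_cjf
  right_inv := D.cjf_cjf
  map_mul' x y := by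
    obtain ⟨a, b, rfl⟩ := D.coords x
    obtain ⟨c, d, rfl⟩ := D.coords y
    have h := D.om_sq
    have h1 : (a + b * D.om : 𝓞 K) * (c + d * D.om) = ((a * c + b * d : ℤ) : 𝓞 K) +
        ((a * d + b * c + b * d : ℤ) : 𝓞 K) * D.om := by
      push_cast
      linear_combination (b * d : 𝓞 K) * h
    rw [h1, D.cjf_co, D.cjf_co, D.cjf_co]
    push_cast
    linear_combination (-b * d : 𝓞 K) * h
  map_add' x y := by
    obtain ⟨a, b, rfl⟩ := D.coords x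
    obtain ⟨c, d, rfl⟩ := D.coords y
    have h1 : (a + b * D.om : 𝓞 K) + (c + d * D.om) = ((a + c : ℤ) : 𝓞 K) +
        ((b + d : ℤ) : 𝓞 K) * D.om := by
      push_cast
      ring
    rw [h1, D.cjf_co, D.cjf_co, D.cjf_co]
    push_cast
    ring

lemma cj_apply (z : 𝓞 K) : D.cj z = D.cjf z := rfl

lemma cj_cj (z : 𝓞 K) : D.cj (D.cj z) = z := D.cjf_cjf z

lemma cr_cj (z : 𝓞 K) : D.cr (D.cj z) = D.cr z := by
  obtain ⟨a, b, rfl⟩ := D.coords z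
  rw [D.cj_apply, D.cjf_co, D.cr_co, D.cr_co]
  exact c5_per ⟨-b, by ring⟩

lemma w1_cj (z : 𝓞 K) : D.w1 ((D.cj z : 𝓞 K) : K) = D.w2 (z : K) := by
  obtain ⟨a, b, rfl⟩ := D.coords z
  rw [← abs_rl, ← abs_rl, D.cj_apply, D.cjf_co, D.rl1, D.rl2]
  congr 1
  push_cast
  linear_combination (-b : ℝ) * g_add

lemma w2_cj (z : 𝓞 K) : D.w2 ((D.cj z : 𝓞 K) : K) = D.w1 (z : K) := by
  obtain ⟨a, b, rfl⟩ := D.coords z
  rw [← abs_rl, ← abs_rl, D.cj_apply, D.cjf_co, D.rl1, D.rl2]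
  congr 1
  push_cast
  linear_combination (-b : ℝ) * g_add

lemma ax_cj (v : ℝ) (z : 𝓞 K) : ax (D.nu v) ((D.cj z : 𝓞 K) : K) =
    (starRingEnd ℂ) (ax (D.nu v) (z : K)) := by
  rw [D.ax_eq, D.ax_eq, ← Complex.exp_conj, D.w1_cj, D.w2_cj]
  congr 1
  rw [map_mul, Complex.conj_I, Complex.conj_ofReal]
  push_cast
  ring

lemma absNorm_cj (z : 𝓞 K) : Ideal.absNorm (Ideal.span {D.cj z}) = Ideal.absNorm (Ideal.span {z}) := by
  obtain ⟨a, b, rfl⟩ := D.coords z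
  rw [D.cj_apply, D.cjf_co, D.absNorm_co, D.absNorm_co]
  congr 1
  unfold nf
  ring

lemma c5_real (x : ℤ) : (starRingEnd ℂ) (c5 x) = c5 x := by
  unfold c5
  exact map_intCast (starRingEnd ℂ) _

lemma cr_real (z : 𝓞 K) : (starRingEnd ℂ) (D.cr z) = D.cr z := c5_real _

/-- the action on ideals -/
noncomputable def cI : Ideal (𝓞 K) ≃ Ideal (𝓞 K) :=
  Function.Involutive.toPerm (fun 𝔞 => 𝔞.map (D.cj : 𝓞 K →+* 𝓞 K)) (fun 𝔞 => by
    change Ideal.map (D.cj : 𝓞 K →+* 𝓞 K) (Ideal.map (D.cj : 𝓞 K →+* 𝓞 K) 𝔞) = 𝔞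
    rw [Ideal.map_map]
    have : (D.cj : 𝓞 K →+* 𝓞 K).comp (D.cj : 𝓞 K →+* 𝓞 K) = RingHom.id _ := by
      ext z
      exact congrArg _ (D.cj_cj z)
    rw [this, Ideal.map_id])

lemma cI_span (z : 𝓞 K) : D.cI (Ideal.span {z}) = Ideal.span {D.cj z} := by
  change (Ideal.span {z}).map (D.cj : 𝓞 K →+* 𝓞 K) = _
  rw [Ideal.map_span, Set.image_singleton]
  rfl

lemma psi_cI (k : ℕ) (𝔞 : Ideal (𝓞 K)) : D.psi k (D.cI 𝔞) = (starRingEnd ℂ) (D.psi k 𝔞) := by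
  have hpid := D.pid
  obtain ⟨z, rfl⟩ : ∃ z, 𝔞 = Ideal.span {z} := ⟨_, (Ideal.span_singleton_generator 𝔞).symm⟩
  rw [D.cI_span, D.psi_span, D.psi_span, map_mul, D.cr_real, D.cr_cj, D.ax_cj]

lemma absNorm_cI (𝔞 : Ideal (𝓞 K)) : Ideal.absNorm (D.cI 𝔞) = Ideal.absNorm 𝔞 := by
  have hpid := D.pid
  obtain ⟨z, rfl⟩ : ∃ z, 𝔞 = Ideal.span {z} := ⟨_, (Ideal.span_singleton_generator 𝔞).symm⟩
  rw [D.cI_span, D.absNorm_cj]

lemma chi_real {q : ℕ} [NeZero q] {χ : DirichletCharacter ℂ q} (h2 : χ ^ 2 = 1) (a : ZMod q) :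
    (starRingEnd ℂ) (χ a) = χ a := by
  have hinv : χ⁻¹ = χ := inv_eq_of_mul_eq_one_left (by rw [← pow_two]; exact h2)
  have := MulChar.star_apply' χ a
  rw [hinv] at this
  exact this

theorem LI_conj (k : ℕ) {q : ℕ} [NeZero q] {χ : DirichletCharacter ℂ q} (h2 : χ ^ 2 = 1) (s : ℂ) :
    LI (tw (D.psi k) χ) ((starRingEnd ℂ) s) = (starRingEnd ℂ) (LI (tw (D.psi k) χ) s) := by
  unfold LI
  rw [Complex.conj_tsum, ← D.cI.tsum_eq]
  refine tsum_congr fun 𝔞 => ?_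
  have h1 : ∀ 𝔟 : Ideal (𝓞 K), tw (D.psi k) χ 𝔟 = D.psi k 𝔟 *
      χ ((Ideal.absNorm 𝔟 : ℕ) : ZMod q) := fun _ => rfl
  rw [h1, h1, D.absNorm_cI, D.psi_cI, map_mul, map_mul, chi_real h2]
  congr 1
  have h7 : ((Ideal.absNorm 𝔞 : ℕ) : ℂ).arg ≠ Real.pi := by
    rw [Complex.natCast_arg]
    exact Real.pi_ne_zero.symm
  have h8 := Complex.conj_cpow ((Ideal.absNorm 𝔞 : ℕ) : ℂ) (-(starRingEnd ℂ) s) h7
  rw [Complex.conj_natCast, map_neg, Complex.conj_conj] at h8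
  exact h8

end QF

end Pool.Agent.U283.GF
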