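import Pool.Agent.U283.GF.FE
import Pool.Agent.U283.GF.G2
import Pool.Agent.Y772.HI.Tw
import Pool.Agent.H419R2.A1

/-! # The field `ℚ(√5)` -/

set_option autoImplicit false
set_option linter.unusedSectionVars false

open NumberField Module Complex

namespace Pool.Agent.U283.GF

open Pool.Agent.Y773 Pool.Agent.Y767

section base

variable {K : Type} [Field K] [NumberField K]

lemma not_sq5 : ¬ ∃ q : ℚ, q ^ 2 = ((5 : ℤ) : ℚ) :=
  H419R2.not_sq_of_squarefree (by
    have := (Nat.prime_iff_prime_int.1 Nat.prime_five).squarefree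
    exact_mod_cast this) (by norm_num)

theorem totR (hK : finrank ℚ K = 2) {s : K} (hs : s ^ 2 = 5) : IsTotallyReal K := by
  refine ⟨fun w => ?_⟩
  rw [InfinitePlace.isReal_iff]
  set φ := w.embedding with hφ
  have h1 : φ s ^ 2 = 5 := by
    rw [← map_pow, hs]
    exact map_ofNat φ 5
  have h2 : (starRingEnd ℂ) (φ s) = φ s := by
    have h3 : (φ s - (Real.sqrt 5 : ℂ)) * (φ s + (Real.sqrt 5 : ℂ)) = 0 := by
      have h4 : ((Real.sqrt 5 : ℝ) : ℂ) ^ 2 = 5 := by
        have : (Real.sqrt 5) ^ 2 = 5 := Real.sq_sqrt (by norm_num)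
        exact_mod_cast this
      linear_combination h1 - h4
    rcases mul_eq_zero.1 h3 with h | h
    · rw [sub_eq_zero.1 h, Complex.conj_ofReal]
    · rw [eq_neg_of_add_eq_zero_left h, map_neg, Complex.conj_ofReal]
  rw [ComplexEmbedding.isReal_iff]
  ext y
  obtain ⟨p, q, rfl⟩ := H419R2.exists_coords not_sq5 hK (x := s) (by rw [hs]; norm_num) y
  simp [ComplexEmbedding.conjugate_coe_eq, h2]

end base

variable (K : Type) [Field K] [NumberField K]

/-- the data of `ℚ(√5)` -/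
structure QF [IsTotallyReal K] where
  s : K
  sq : s ^ 2 = 5
  fr : finrank ℚ K = 2
  w1 : InfinitePlace K
  w2 : InfinitePlace K
  h1 : rl w1 s = Real.sqrt 5
  h2 : rl w2 s = -Real.sqrt 5
  ne : w1 ≠ w2
  all : ∀ w, w = w1 ∨ w = w2

variable {K}

theorem exists_QF [IsTotallyReal K] (hK : finrank ℚ K = 2) {s : K} (hs : s ^ 2 = 5) :
    ∃ D : QF K, D.s = s := by
  have h5 : 0 < Real.sqrt 5 := Real.sqrt_pos.2 (by norm_num)
  have hval : ∀ w : InfinitePlace K, rl w s = Real.sqrt 5 ∨ rl w s = -Real.sqrt 5 := by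
    intro w
    have h1 : rl w s ^ 2 = 5 := by
      rw [← map_pow, hs]
      exact map_ofNat _ 5
    have h2 : (rl w s - Real.sqrt 5) * (rl w s + Real.sqrt 5) = 0 := by
      have : (Real.sqrt 5) ^ 2 = 5 := Real.sq_sqrt (by norm_num)
      linear_combination h1 - this
    rcases mul_eq_zero.1 h2 with h | h
    · left; linarith
    · right; linarith
  have hinj : ∀ w w' : InfinitePlace K, rl w s = rl w' s → w = w' := by
    intro w w' h
    have h1 : ∀ y : K, rl w y = rl w' y := by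
      intro y
      obtain ⟨p, q, rfl⟩ := H419R2.exists_coords not_sq5 hK (x := s) (by rw [hs]; norm_num) y
      simp [h]
    ext y
    rw [← abs_rl, ← abs_rl, h1]
  have hcard : Nat.card (InfinitePlace K) = 2 := by rw [Nat.card_eq_fintype_card, card_place, hK]
  obtain ⟨u, v, huv, hall⟩ := Nat.card_eq_two_iff.1 hcard
  have hall' : ∀ w, w = u ∨ w = v := by
    intro w
    have : w ∈ ({u, v} : Set (InfinitePlace K)) := by rw [hall]; trivial
    simpa using this
  rcases hval u with hu | hu <;> rcases hval v with hv | hv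
  · exact absurd (hinj u v (hu.trans hv.symm)) huv
  · exact ⟨⟨s, hs, hK, u, v, hu, hv, huv, hall'⟩, rfl⟩
  · exact ⟨⟨s, hs, hK, v, u, hv, hu, huv.symm, fun w => (hall' w).symm⟩, rfl⟩
  · exact absurd (hinj u v (hu.trans hv.symm)) huv

namespace QF

variable [IsTotallyReal K] (D : QF K)

lemma sum_eq {M : Type*} [AddCommMonoid M] (f : InfinitePlace K → M) :
    ∑ w, f w = f D.w1 + f D.w2 := by
  refine Fintype.sum_eq_add D.w1 D.w2 D.ne fun x hx => ?_
  rcases D.all x with h | h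
  · exact absurd h hx.1
  · exact absurd h hx.2

lemma prod_eq {M : Type*} [CommMonoid M] (f : InfinitePlace K → M) :
    ∏ w, f w = f D.w1 * f D.w2 := by
  refine Fintype.prod_eq_mul D.w1 D.w2 D.ne fun x hx => ?_
  rcases D.all x with h | h
  · exact absurd h hx.1
  · exact absurd h hx.2

/-- `ω = (1 + √5)/2` -/
noncomputable def om : 𝓞 K := ⟨(1 + D.s) / 2, by
  refine ⟨Polynomial.X ^ 2 - Polynomial.X - 1, ?_, ?_⟩
  · monicity!
  · simp only [Polynomial.eval₂_sub, Polynomial.eval₂_pow, Polynomial.eval₂_X,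
      Polynomial.eval₂_one]
    have := D.sq
    linear_combination this / 4⟩

lemma om_coe : ((D.om : 𝓞 K) : K) = (1 + D.s) / 2 := rfl

lemma om_sq : D.om ^ 2 = D.om + 1 := by
  apply RingOfIntegers.ext
  have h1 : ((D.om ^ 2 : 𝓞 K) : K) = ((D.om : 𝓞 K) : K) ^ 2 := map_pow _ _ _
  have h2 : ((D.om + 1 : 𝓞 K) : K) = ((D.om : 𝓞 K) : K) + 1 := by
    have : ((D.om + 1 : 𝓞 K) : K) = algebraMap (𝓞 K) K (D.om + 1) := rfl
    rw [this, map_add, map_one]
  rw [h1, h2, om_coe]
  linear_combination D.sq / 4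

lemma coe_lin (a b : ℤ) : ((a + b * D.om : 𝓞 K) : K) = a + b * ((1 + D.s) / 2) := by
  have : ((a + b * D.om : 𝓞 K) : K) = algebraMap (𝓞 K) K (a + b * D.om) := rfl
  rw [this, map_add, map_mul, map_intCast, map_intCast]
  rfl

lemma coords (z : 𝓞 K) : ∃ a b : ℤ, z = a + b * D.om := by
  obtain ⟨a, b, h⟩ := H419R2.integral_coords (K := K) (m := 1) (R := 1) (D := 5) (by norm_num)
    (by norm_num) (by
      have := (Nat.prime_iff_prime_int.1 Nat.prime_five).squarefree
      exact_mod_cast this) (by norm_num) D.fr (x := D.s) (by rw [D.sq]; norm_num)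
      (y := (z : K)) (RingOfIntegers.isIntegral_coe z)
  refine ⟨a, b, ?_⟩
  apply RingOfIntegers.ext
  rw [h, coe_lin]
  simp

/-- the first coordinate -/
noncomputable def ca (z : 𝓞 K) : ℤ := (D.coords z).choose

/-- the second coordinate -/
noncomputable def cb (z : 𝓞 K) : ℤ := (D.coords z).choose_spec.choose

lemma eq_co (z : 𝓞 K) : z = D.ca z + D.cb z * D.om := (D.coords z).choose_spec.choose_spec

/-- the golden ratio -/
noncomputable def g1 : ℝ := (1 + Real.sqrt 5) / 2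

/-- its conjugate -/
noncomputable def g2 : ℝ := (1 - Real.sqrt 5) / 2

lemma g_add : g1 + g2 = 1 := by unfold g1 g2; ring

lemma sqrt5_sq : (Real.sqrt 5) ^ 2 = 5 := Real.sq_sqrt (by norm_num)

lemma g_mul : g1 * g2 = -1 := by
  unfold g1 g2
  linear_combination -(1 / 4 : ℝ) * sqrt5_sq

lemma rl1 (a b : ℤ) : rl D.w1 (((a + b * D.om : 𝓞 K)) : K) = a + b * g1 := by
  have h2 : rl D.w1 (2 : K) = 2 := map_ofNat _ 2
  rw [coe_lin, map_add, map_mul, map_div₀, map_add, map_one, D.h1, h2, map_intCast, map_intCast, g1]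

lemma rl2 (a b : ℤ) : rl D.w2 (((a + b * D.om : 𝓞 K)) : K) = a + b * g2 := by
  have h2 : rl D.w2 (2 : K) = 2 := map_ofNat _ 2
  rw [coe_lin, map_add, map_mul, map_div₀, map_add, map_one, D.h2, h2, map_intCast, map_intCast, g2]
  ring

lemma sqrt5_pos : 0 < Real.sqrt 5 := Real.sqrt_pos.2 (by norm_num)

/-- coordinates are unique -/
lemma uniq {a b a' b' : ℤ} (h : (a + b * D.om : 𝓞 K) = a' + b' * D.om) : a = a' ∧ b = b' := by
  have h1 := D.rl1 a b
  have h2 := D.rl2 a b
  rw [h, D.rl1] at h1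
  rw [h, D.rl2] at h2
  have h3 : (b' : ℝ) * Real.sqrt 5 = b * Real.sqrt 5 := by
    unfold g1 at h1
    unfold g2 at h2
    linear_combination h1 - h2
  have h4 : (b' : ℝ) = b := mul_right_cancel₀ sqrt5_pos.ne' h3
  have h5 : b' = b := by exact_mod_cast h4
  subst h5
  have h6 : (a' : ℝ) = a := by linear_combination h1
  exact ⟨by exact_mod_cast h6.symm, rfl⟩

lemma ca_eq (a b : ℤ) : D.ca (a + b * D.om) = a :=
  (D.uniq (D.eq_co (a + b * D.om))).1.symm

lemma cb_eq (a b : ℤ) : D.cb (a + b * D.om) = b :=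
  (D.uniq (D.eq_co (a + b * D.om))).2.symm

lemma trace_eq (a b : ℤ) : Algebra.trace ℤ (𝓞 K) (a + b * D.om) = 2 * a + b := by
  have h1 := trace_eq_sum (K := K) (((a + b * D.om : 𝓞 K)) : K)
  rw [D.sum_eq, D.rl1, D.rl2] at h1
  have h2 := Algebra.coe_trace_int (K := K) (a + b * D.om)
  rw [← h2] at h1
  have h3 : ((Algebra.trace ℤ (𝓞 K) (a + b * D.om) : ℤ) : ℝ) = ((2 * a + b : ℤ) : ℝ) := by
    push_cast
    have := g_add
    push_cast at h1
    linear_combination h1 + b * this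
  exact_mod_cast h3

lemma norm_eq (a b : ℤ) : Algebra.norm ℤ (a + b * D.om : 𝓞 K) = nf a b := by
  have h1 := norm_eq_prod (K := K) (((a + b * D.om : 𝓞 K)) : K)
  rw [D.prod_eq, D.rl1, D.rl2] at h1
  have h2 := Algebra.coe_norm_int (K := K) (a + b * D.om)
  rw [← h2] at h1
  have h3 : ((Algebra.norm ℤ (a + b * D.om : 𝓞 K) : ℤ) : ℝ) = ((nf a b : ℤ) : ℝ) := by
    unfold nf
    have e1 := g_add
    have e2 := g_mul
    push_cast at h1 ⊢
    linear_combination h1 + (a * b : ℝ) * e1 + (b : ℝ) ^ 2 * e2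
  exact_mod_cast h3

end QF

end Pool.Agent.U283.GF
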