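import Pool.Agent.U283.GF.Kf

/-! # The field `ℚ(√5)`: discriminant, different, units, residues -/

set_option autoImplicit false
set_option linter.unusedSectionVars false

open NumberField Module Complex

namespace Pool.Agent.U283.GF

open Pool.Agent.Y773 Pool.Agent.Y767

variable {K : Type} [Field K] [NumberField K] [IsTotallyReal K] (D : QF K)

namespace QF

lemma zero_co : (0 : 𝓞 K) = (0 : ℤ) + (0 : ℤ) * D.om := by push_cast; ring

lemma one_co : (1 : 𝓞 K) = (1 : ℤ) + (0 : ℤ) * D.om := by push_cast; ring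

/-- the integral basis -/
noncomputable def bas : Basis (Fin 2) ℤ (𝓞 K) :=
  Basis.mk (v := ![1, D.om]) (by
    rw [LinearIndependent.pair_iff]
    intro s t h
    have h1 : (s + t * D.om : 𝓞 K) = (0 : ℤ) + (0 : ℤ) * D.om := by
      rw [← D.zero_co, ← h]
      simp
    exact D.uniq h1) (by
    intro z _
    rw [Matrix.range_cons, Matrix.range_cons, Matrix.range_empty, Set.union_empty,
      ← Set.insert_eq, Submodule.mem_span_pair]
    exact ⟨D.ca z, D.cb z, by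
      conv_rhs => rw [D.eq_co z]
      simp⟩)

lemma bas_zero : D.bas 0 = 1 := by simp [bas]

lemma bas_one : D.bas 1 = D.om := by simp [bas]

lemma om_mul_om : D.om * D.om = (1 : ℤ) + (1 : ℤ) * D.om := by
  rw [← pow_two, D.om_sq]
  push_cast
  ring

include D in
theorem discr_eq : discr K = 5 := by
  rw [← discr_eq_discr K D.bas, Algebra.discr_def, Matrix.det_fin_two]
  simp only [Algebra.traceMatrix_apply, Algebra.traceForm_apply, D.bas_zero, D.bas_one, one_mul,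
    mul_one]
  have h1 : Algebra.trace ℤ (𝓞 K) 1 = 2 := by
    rw [D.one_co, D.trace_eq]; norm_num
  have h2 : Algebra.trace ℤ (𝓞 K) D.om = 1 := by
    have : D.om = (0 : ℤ) + (1 : ℤ) * D.om := by push_cast; ring
    rw [this, D.trace_eq]; norm_num
  have h3 : Algebra.trace ℤ (𝓞 K) (D.om * D.om) = 3 := by
    rw [D.om_mul_om, D.trace_eq]; norm_num
  rw [h1, h2, h3]
  norm_num

include D in
theorem pid : IsPrincipalIdealRing (𝓞 K) := by
  apply RingOfIntegers.isPrincipalIdealRing_of_abs_discr_lt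
  rw [D.discr_eq, D.fr, IsTotallyReal.nrComplexPlaces_eq_zero]
  simp [Nat.factorial]
  norm_num

/-- `√5` -/
noncomputable def rt : 𝓞 K := (-1 : ℤ) + (2 : ℤ) * D.om

lemma rt_sq : D.rt * D.rt = 5 := by
  unfold rt
  have := D.om_sq
  push_cast
  linear_combination 4 * this

lemma rt_ne : D.rt ≠ 0 := by
  intro h
  have := D.rt_sq
  rw [h, mul_zero] at this
  have h2 : (5 : 𝓞 K) ≠ 0 := by norm_num
  exact h2 this.symm

lemma absNorm_co (a b : ℤ) : Ideal.absNorm (Ideal.span {(a + b * D.om : 𝓞 K)}) = (nf a b).natAbs := by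
  rw [Ideal.absNorm_span_singleton, D.norm_eq]

lemma absNorm_rt : Ideal.absNorm (Ideal.span {D.rt}) = 5 := by
  unfold rt
  rw [D.absNorm_co]
  norm_num [nf]

include D in
lemma absNorm_diff : Ideal.absNorm (differentIdeal ℤ (𝓞 K)) = 5 := by
  rw [absNorm_differentIdeal K, D.discr_eq]
  norm_num

theorem diff_eq : differentIdeal ℤ (𝓞 K) = Ideal.span {D.rt} := by
  have hp : (differentIdeal ℤ (𝓞 K)).IsPrime := Ideal.isPrime_of_irreducible_absNorm (by
    rw [D.absNorm_diff]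
    exact (Nat.prime_five))
  have h5 : (5 : 𝓞 K) ∈ differentIdeal ℤ (𝓞 K) := by
    have := Ideal.absNorm_mem (differentIdeal ℤ (𝓞 K))
    rw [D.absNorm_diff] at this
    exact_mod_cast this
  rw [← D.rt_sq] at h5
  have h6 : D.rt ∈ differentIdeal ℤ (𝓞 K) := (hp.mem_or_mem h5).elim id id
  have hle : Ideal.span {D.rt} ≤ differentIdeal ℤ (𝓞 K) := by
    rwa [Ideal.span_singleton_le_iff_mem]
  obtain ⟨J, hJ⟩ := Ideal.dvd_iff_le.2 hle
  have h7 := congrArg Ideal.absNorm hJ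
  rw [map_mul, D.absNorm_rt, D.absNorm_diff] at h7
  have h8 : Ideal.absNorm J = 1 := by omega
  rw [Ideal.absNorm_eq_one_iff] at h8
  rw [hJ, h8, Ideal.mul_top]

lemma ca_add_three_cb_mul (z w : 𝓞 K) :
    (5 : ℤ) ∣ (D.ca (z * w) + 3 * D.cb (z * w)) -
      (D.ca z + 3 * D.cb z) * (D.ca w + 3 * D.cb w) := by
  have h1 : z * w = ((D.ca z * D.ca w + D.cb z * D.cb w : ℤ) : 𝓞 K) +
      ((D.ca z * D.cb w + D.cb z * D.ca w + D.cb z * D.cb w : ℤ) : 𝓞 K) * D.om := by
    conv_lhs => rw [D.eq_co z, D.eq_co w]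
    have := D.om_sq
    push_cast
    linear_combination (D.cb z * D.cb w : 𝓞 K) * this
  rw [h1, D.ca_eq, D.cb_eq]
  exact ⟨-(D.cb z * D.cb w), by ring⟩

lemma mem_rt (a b : ℤ) : (a + b * D.om : 𝓞 K) ∈ Ideal.span {D.rt} ↔ (5 : ℤ) ∣ a + 3 * b := by
  rw [Ideal.mem_span_singleton']
  constructor
  · rintro ⟨z, hz⟩
    have h1 := D.ca_add_three_cb_mul z D.rt
    rw [hz, D.ca_eq, D.cb_eq] at h1
    unfold rt at h1
    rw [D.ca_eq, D.cb_eq] at h1
    omega
  · intro h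
    obtain ⟨k, hk⟩ := h
    -- `c = (2 b - a)/5`, `d = b - 2 c`
    refine ⟨((b - k : ℤ) : 𝓞 K) + ((b - 2 * (b - k) : ℤ) : 𝓞 K) * D.om, ?_⟩
    have ha : (a : 𝓞 K) = 5 * k - 3 * b := by
      have : a = 5 * k - 3 * b := by omega
      rw [this]
      push_cast
      ring
    rw [ha]
    unfold rt
    have := D.om_sq
    push_cast
    linear_combination (2 * (b - 2 * (b - k)) : 𝓞 K) * this

/-- the quadratic character modulo `√5` -/
noncomputable def cr (z : 𝓞 K) : ℂ := c5 (D.ca z + 3 * D.cb z)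

lemma cr_co (a b : ℤ) : D.cr (a + b * D.om) = c5 (a + 3 * b) := by
  unfold cr
  rw [D.ca_eq, D.cb_eq]

lemma cr_mul (z w : 𝓞 K) : D.cr (z * w) = D.cr z * D.cr w := by
  unfold cr
  rw [← c5_mul]
  exact c5_per (D.ca_add_three_cb_mul z w)

lemma c5_eq_zero_iff (x : ℤ) : c5 x = 0 ↔ (5 : ℤ) ∣ x := by
  unfold c5
  rw [Int.cast_eq_zero, jacobiSym.eq_zero_iff]
  constructor
  · rintro ⟨-, h⟩
    by_contra h1
    apply h
    have : IsCoprime x (5 : ℤ) := by
      rw [isCoprime_comm]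
      exact (Int.prime_iff_natAbs_prime.2 (by norm_num)).coprime_iff_not_dvd.2 h1
    exact_mod_cast Int.isCoprime_iff_gcd_eq_one.1 this
  · intro h
    refine ⟨by norm_num, fun h1 => ?_⟩
    have h2 : IsCoprime x (5 : ℤ) := Int.isCoprime_iff_gcd_eq_one.2 (by exact_mod_cast h1)
    have h3 := h2.isUnit_of_dvd' h dvd_rfl
    rw [Int.isUnit_iff] at h3
    omega

lemma cr_ne_zero_iff (z : 𝓞 K) : D.cr z ≠ 0 ↔ z ∉ Ideal.span {D.rt} := by
  have h := D.mem_rt (D.ca z) (D.cb z)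
  rw [← D.eq_co z] at h
  rw [h, cr, Ne, c5_eq_zero_iff]

lemma cr_congr {z w : 𝓞 K} (h : z - w ∈ Ideal.span {D.rt}) : D.cr z = D.cr w := by
  have h1 : z - w = ((D.ca z - D.ca w : ℤ) : 𝓞 K) + ((D.cb z - D.cb w : ℤ) : 𝓞 K) * D.om := by
    conv_lhs => rw [D.eq_co z, D.eq_co w]
    push_cast
    ring
  rw [h1, D.mem_rt] at h
  unfold cr
  refine c5_per ?_
  have : D.ca z + 3 * D.cb z - (D.ca w + 3 * D.cb w) =
    D.ca z - D.ca w + 3 * (D.cb z - D.cb w) := by ring
  rwa [this]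

lemma cr_int (n : ℤ) : D.cr (n : 𝓞 K) = c5 n := by
  have : (n : 𝓞 K) = (n : ℤ) + (0 : ℤ) * D.om := by push_cast; ring
  rw [this, D.cr_co]
  simp

lemma cr_one : D.cr 1 = 1 := by
  have := D.cr_int 1
  rw [Int.cast_one] at this
  rw [this]
  unfold c5
  simp

lemma cr_neg_one : D.cr (-1) = 1 := by
  have := D.cr_int (-1)
  rw [Int.cast_neg, Int.cast_one] at this
  rw [this]
  unfold c5
  norm_num

lemma cr_om : D.cr D.om = -1 := by
  have h : D.om = ((0 : ℤ) : 𝓞 K) + ((1 : ℤ) : 𝓞 K) * D.om := by push_cast; ring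
  have h2 := D.cr_co 0 1
  rw [← h] at h2
  rw [h2]
  unfold c5
  norm_num

lemma cr_two : D.cr 2 = -1 := by
  have := D.cr_int 2
  have h2 : ((2 : ℤ) : 𝓞 K) = 2 := by norm_num
  rw [h2] at this
  rw [this]
  unfold c5
  norm_num

/-- the fundamental unit -/
noncomputable def omU : (𝓞 K)ˣ where
  val := D.om
  inv := D.om - 1
  val_inv := by
    have := D.om_sq
    linear_combination this
  inv_val := by
    have := D.om_sq
    linear_combination this

lemma one_lt_g1 : 1 < g1 := by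
  unfold g1
  have h1 : (2 : ℝ) < Real.sqrt 5 := by
    rw [Real.lt_sqrt (by norm_num)]
    norm_num
  linarith

lemma sqrt5_bd : 2 < Real.sqrt 5 ∧ Real.sqrt 5 < 3 := by
  constructor
  · rw [Real.lt_sqrt (by norm_num)]
    norm_num
  · rw [Real.sqrt_lt' (by norm_num)]
    norm_num

lemma g1_bd : 1 < g1 ∧ g1 < 2 := by
  refine ⟨one_lt_g1, ?_⟩
  have := sqrt5_bd.2
  unfold g1
  linarith

/-- a unit in `[1, ω)` is one -/
lemma unit_one {u : (𝓞 K)ˣ} (h1 : 1 ≤ rl D.w1 ((u : 𝓞 K) : K)) (h2 : rl D.w1 ((u : 𝓞 K) : K) < g1) :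
    u = 1 := by
  obtain ⟨a, b, hab⟩ := D.coords (u : 𝓞 K)
  have hN : |Algebra.norm ℤ (u : 𝓞 K)| = 1 := by
    have := (Units.isUnit u).map (Algebra.norm ℤ (S := 𝓞 K))
    exact Int.isUnit_iff_abs_eq.1 this
  have hN2 : |rl D.w1 ((u : 𝓞 K) : K)| * |rl D.w2 ((u : 𝓞 K) : K)| = 1 := by
    rw [← abs_mul]
    have h3 := norm_eq_prod (K := K) ((u : 𝓞 K) : K)
    rw [D.prod_eq] at h3
    rw [← h3, ← Algebra.coe_norm_int]
    have : |((Algebra.norm ℤ (u : 𝓞 K) : ℤ) : ℝ)| = ((1 : ℤ) : ℝ) := by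
      rw [← Int.cast_abs, hN]
    push_cast at this ⊢
    exact this
  rw [hab, D.rl1] at h1 h2
  rw [hab, D.rl1, D.rl2] at hN2
  rw [abs_of_pos (by linarith : (0 : ℝ) < a + b * g1)] at hN2
  have h3 : |(a : ℝ) + b * g2| ≤ 1 := by
    by_contra h
    push Not at h
    nlinarith
  rw [abs_le] at h3
  have h4 : (a : ℝ) + b * g1 - (a + b * g2) = b * Real.sqrt 5 := by
    unfold g1 g2
    ring
  obtain ⟨s1, s2⟩ := sqrt5_bd
  obtain ⟨p1, p2⟩ := g1_bd
  have h5 : 0 ≤ (b : ℝ) * Real.sqrt 5 := by linarith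
  have h6 : (b : ℝ) * Real.sqrt 5 < 3 := by linarith
  have hb0 : 0 ≤ b := by
    by_contra h
    push Not at h
    have : (b : ℝ) ≤ -1 := by exact_mod_cast (by omega : b ≤ -1)
    nlinarith
  have hb1 : b ≤ 1 := by
    by_contra h
    push Not at h
    have : (2 : ℝ) ≤ b := by exact_mod_cast (by omega : 2 ≤ b)
    nlinarith
  have hb : b = 0 ∨ b = 1 := by omega
  rcases hb with rfl | rfl
  · have ha1 : (1 : ℝ) ≤ a := by simpa using h1
    have ha2 : (a : ℝ) < 2 := by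
      have : (a : ℝ) < g1 := by simpa using h2
      linarith
    have e1 : 1 ≤ a := by exact_mod_cast ha1
    have e2 : a < 2 := by exact_mod_cast ha2
    have e3 : a = 1 := by omega
    apply Units.ext
    rw [hab, e3, Units.val_one]
    push_cast
    ring
  · exfalso
    have ha1 : (-1 : ℝ) < a := by
      have : (1 : ℝ) ≤ a + g1 := by simpa using h1
      linarith
    have ha2 : (a : ℝ) < 0 := by
      have : (a : ℝ) + g1 < g1 := by simpa using h2
      linarith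
    have e1 : -1 < a := by exact_mod_cast ha1
    have e2 : a < 0 := by exact_mod_cast ha2
    omega

lemma rl_om : rl D.w1 ((D.om : 𝓞 K) : K) = g1 := by
  have h : D.om = ((0 : ℤ) : 𝓞 K) + ((1 : ℤ) : 𝓞 K) * D.om := by push_cast; ring
  have h2 := D.rl1 0 1
  rw [← h] at h2
  rw [h2]
  push_cast
  ring

lemma rl_om2 : rl D.w2 ((D.om : 𝓞 K) : K) = g2 := by
  have h : D.om = ((0 : ℤ) : 𝓞 K) + ((1 : ℤ) : 𝓞 K) * D.om := by push_cast; ring
  have h2 := D.rl2 0 1
  rw [← h] at h2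
  rw [h2]
  push_cast
  ring

theorem units_eq (u : (𝓞 K)ˣ) : ∃ n : ℤ, u = D.omU ^ n ∨ u = -D.omU ^ n := by
  set r : (𝓞 K)ˣ →* ℝ := (((rl D.w1).comp (algebraMap (𝓞 K) K) : 𝓞 K →+* ℝ) : 𝓞 K →* ℝ).comp
    (Units.coeHom (𝓞 K)) with hr
  have hr' : ∀ v : (𝓞 K)ˣ, r v = rl D.w1 ((v : 𝓞 K) : K) := fun v => rfl
  have hr0 : ∀ v : (𝓞 K)ˣ, r v ≠ 0 := fun v => by
    have : r v * r v⁻¹ = 1 := by rw [← map_mul, mul_inv_cancel, map_one]
    intro h
    rw [h, zero_mul] at this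
    exact zero_ne_one this
  have hrz : ∀ (v : (𝓞 K)ˣ) (n : ℤ), r (v ^ n) = r v ^ n := fun v n => by
    have h1 : ∀ k : ℕ, r (v ^ k) = r v ^ k := fun k => map_pow r v k
    rcases n with k | k
    · simp
    · rw [zpow_negSucc, zpow_negSucc, ← h1]
      have : r (v ^ (k + 1)) * r (v ^ (k + 1))⁻¹ = 1 := by rw [← map_mul, mul_inv_cancel, map_one]
      exact eq_inv_of_mul_eq_one_right this
  have hom : r D.omU = g1 := by rw [hr']; exact D.rl_om
  obtain ⟨n, hn1, hn2⟩ := exists_mem_Ico_zpow (abs_pos.2 (hr0 u)) one_lt_g1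
  have hg0 : 0 < g1 := lt_trans zero_lt_one one_lt_g1
  have hgn : 0 < g1 ^ n := zpow_pos hg0 n
  refine ⟨n, ?_⟩
  rcases lt_or_gt_of_ne (hr0 u) with h | h
  · right
    have h1 : (-u) * (D.omU ^ n)⁻¹ = 1 := by
      have hneg : r (-u * (D.omU ^ n)⁻¹) = |r u| / g1 ^ n := by
        have e1 : r (-u) = |r u| := by
          rw [abs_of_neg h, hr', hr', Units.val_neg]
          have : (((-(u : 𝓞 K)) : 𝓞 K) : K) = -((u : 𝓞 K) : K) := map_neg (algebraMap (𝓞 K) K) _
          rw [this, map_neg]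
        rw [map_mul, ← zpow_neg, hrz, hom, e1, zpow_neg]
        rfl
      apply D.unit_one
      · rw [← hr', hneg, le_div_iff₀ hgn, one_mul]
        exact hn1
      · rw [← hr', hneg, div_lt_iff₀ hgn]
        rw [zpow_add_one₀ hg0.ne'] at hn2
        linarith
    have h2 := eq_inv_of_mul_eq_one_left h1
    rw [inv_inv] at h2
    rw [← h2, neg_neg]
  · left
    have h1 : u * (D.omU ^ n)⁻¹ = 1 := by
      have hneg : r (u * (D.omU ^ n)⁻¹) = |r u| / g1 ^ n := by
        rw [map_mul, ← zpow_neg, hrz, hom, zpow_neg, abs_of_pos h]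
        rfl
      apply D.unit_one
      · rw [← hr', hneg, le_div_iff₀ hgn, one_mul]
        exact hn1
      · rw [← hr', hneg, div_lt_iff₀ hgn]
        rw [zpow_add_one₀ hg0.ne'] at hn2
        linarith
    have h2 := eq_inv_of_mul_eq_one_left h1
    rwa [inv_inv] at h2

/-- a multiplicative function trivial at `ω` and `-1` is trivial on units -/
theorem unit_triv (f : 𝓞 K →* ℂ) (h1 : f D.om = 1) (h2 : f (-1) = 1) (u : (𝓞 K)ˣ) :
    f (u : 𝓞 K) = 1 := by
  have h3 : Units.map f D.omU = 1 := by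
    apply Units.ext
    exact h1
  have h4 : ∀ n : ℤ, f ((D.omU ^ n : (𝓞 K)ˣ) : 𝓞 K) = 1 := by
    intro n
    have : Units.map f (D.omU ^ n) = 1 := by rw [map_zpow, h3, one_zpow]
    exact congrArg Units.val this
  obtain ⟨n, h | h⟩ := D.units_eq u
  · rw [h, h4]
  · rw [h, Units.val_neg, ← neg_one_mul, map_mul, h4, h2, one_mul]

end QF

end Pool.Agent.U283.GF
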