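import Pool.Agent.U283.GF.Red

/-! # All quadratic twists -/

set_option autoImplicit false
set_option linter.unusedSectionVars false

open NumberField Module Complex

namespace Pool.Agent.U283.GF

open Pool.Agent.Y773 Pool.Agent.Y767

variable {K : Type} [Field K] [NumberField K] [IsTotallyReal K] (D : QF K)

namespace QF

lemma nf_mod (a b : ℤ) : (5 : ℤ) ∣ nf a b - (a + 3 * b) * (a + 3 * b) := by
  unfold nf
  exact ⟨-a * b - 2 * b ^ 2, by ring⟩

lemma c5_natAbs (n : ℤ) : c5 ((n.natAbs : ℕ) : ℤ) = c5 n := by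
  obtain ⟨m, rfl | rfl⟩ := Int.eq_nat_or_neg n
  · rw [Int.natAbs_natCast]
  · rw [Int.natAbs_neg, Int.natAbs_natCast]
    have : (-(m : ℤ)) = (-1) * m := by ring
    rw [this, c5_mul]
    have h : c5 (-1) = 1 := by unfold c5; norm_num
    rw [h, one_mul]

/-- norms of ideals prime to `√5` are squares modulo `5` -/
lemma c5_absNorm (k : ℕ) (𝔞 : Ideal (𝓞 K)) (h : D.psi k 𝔞 ≠ 0) :
    c5 ((Ideal.absNorm 𝔞 : ℕ) : ℤ) = 1 := by
  have hpid := D.pid
  obtain ⟨z, rfl⟩ : ∃ z, 𝔞 = Ideal.span {z} := ⟨_, (Ideal.span_singleton_generator 𝔞).symm⟩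
  obtain ⟨a, b, rfl⟩ := D.coords z
  rw [D.psi_span, D.cr_co] at h
  have h1 := left_ne_zero_of_mul h
  rw [D.absNorm_co, c5_natAbs, c5_per (nf_mod a b), c5_mul]
  have h2 : ¬ (5 : ℤ) ∣ a + 3 * b := fun h3 => h1 ((c5_eq_zero_iff _).2 h3)
  have h3 : IsCoprime (a + 3 * b) ((5 : ℕ) : ℤ) := by
    rw [isCoprime_comm]
    push_cast
    exact (Int.prime_iff_natAbs_prime.2 (by norm_num)).coprime_iff_not_dvd.2 h2
  unfold c5
  have := jacobiSym.sq_one (a := a + 3 * b) (b := 5)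
    (by exact_mod_cast Int.isCoprime_iff_gcd_eq_one.1 h3)
  rw [← Int.cast_mul, ← pow_two, this]
  norm_num

/-- reduction of the conductor -/
lemma tw_red (k : ℕ) {q m : ℕ} {χ : DirichletCharacter ℂ q} {χ' : DirichletCharacter ℂ m}
    (h : ∀ n : ℤ, χ (n : ZMod q) = c5 n * χ' (n : ZMod m)) : tw (D.psi k) χ = tw (D.psi k) χ' := by
  ext 𝔞
  change D.psi k 𝔞 * χ ((Ideal.absNorm 𝔞 : ℕ) : ZMod q) = D.psi k 𝔞 *
    χ' ((Ideal.absNorm 𝔞 : ℕ) : ZMod m)
  by_cases h0 : D.psi k 𝔞 = 0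
  · rw [h0, zero_mul, zero_mul]
  · have h1 := h ((Ideal.absNorm 𝔞 : ℕ) : ℤ)
    rw [D.c5_absNorm k 𝔞 h0, one_mul, Int.cast_natCast, Int.cast_natCast] at h1
    rw [h1]

/-- **all quadratic twists** -/
theorem van_all (k : ℕ) {q : ℕ} (hq : 0 < q) {χ : DirichletCharacter ℂ q} (hχ : χ.IsPrimitive)
    (h2 : χ ^ 2 = 1) : (∃ 𝔠, IsHecke K 𝔠 (D.nu (vk k)) (tw (D.psi k) χ)) ∧
      ∃ F : ℂ → ℂ, Differentiable ℂ F ∧
      (∀ s : ℂ, 1 < s.re → F s = LI (tw (D.psi k) χ) s) ∧ F (1 / 2) = 0 := by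
  have : NeZero q := ⟨hq.ne'⟩
  by_cases h5 : 5 ∣ q
  · obtain ⟨m, χ', -, hm, hm5, hχ', h2', hv⟩ := red hχ h2 h5
    have : NeZero m := ⟨hm.ne'⟩
    rw [D.tw_red k hv]
    exact ⟨⟨_, D.tw_isHecke k hχ' hm5⟩, D.van k hχ' h2' hm5⟩
  · have hq5 : Nat.Coprime q 5 := by
      rw [Nat.coprime_comm]
      exact (Nat.Prime.coprime_iff_not_dvd (by norm_num)).2 h5
    exact ⟨⟨_, D.tw_isHecke k hχ hq5⟩, D.van k hχ h2 hq5⟩

/-! ### cuspidality -/

/-- a prime above `11` -/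
noncomputable def el : 𝓞 K := (3 : ℤ) + (1 : ℤ) * D.om

lemma cj_el : D.cj D.el = (4 : ℤ) + (-1 : ℤ) * D.om := by
  unfold el
  rw [D.cj_apply, D.cjf_co]
  norm_num

lemma absNorm_el : Ideal.absNorm (Ideal.span {D.el}) = 11 := by
  unfold el
  rw [D.absNorm_co]
  norm_num [nf]

lemma absNorm_cj_el : Ideal.absNorm (Ideal.span {D.cj D.el}) = 11 := by
  rw [D.absNorm_cj, D.absNorm_el]

lemma g2_eq : g2 = 1 - g1 := by linarith [g_add]

lemma rl_el : rl D.w1 ((D.el : 𝓞 K) : K) = 3 + g1 := by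
  unfold el
  rw [D.rl1]
  push_cast
  ring

lemma rl_cj_el : rl D.w1 ((D.cj D.el : 𝓞 K) : K) = 4 - g1 := by
  rw [D.cj_el, D.rl1]
  push_cast
  ring

theorem psi_ne (k : ℕ) : D.psi k (Ideal.span {D.el}) ≠ D.psi k (Ideal.span {D.cj D.el}) := by
  rw [D.psi_span, D.psi_span, D.cr_cj]
  have hcr : D.cr D.el = 1 := by
    unfold el
    rw [D.cr_co]
    unfold c5
    norm_num
  rw [hcr, one_mul, one_mul, D.ax_eq, D.ax_eq, D.w1_cj, D.w2_cj]
  have hg := g1_bd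
  have hw1 : D.w1 ((D.el : 𝓞 K) : K) = 3 + g1 := by
    rw [← abs_rl, D.rl_el, abs_of_pos (by linarith)]
  have hw2 : D.w2 ((D.el : 𝓞 K) : K) = 4 - g1 := by
    rw [← D.w1_cj, ← abs_rl, D.rl_cj_el, abs_of_pos (by linarith)]
  rw [hw1, hw2]
  intro h
  rw [Complex.exp_eq_exp_iff_exists_int] at h
  obtain ⟨n, hn⟩ := h
  -- `v (log z - log z') = n π`
  have h1 : vk k * (Real.log (3 + g1) - Real.log (4 - g1)) = n * Real.pi := by
    have h2 : ((vk k * (Real.log (3 + g1) - Real.log (4 - g1)) : ℝ) : ℂ) =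
        ((n * Real.pi : ℝ) : ℂ) := by
      have hI : (2 * I : ℂ) ≠ 0 := by simp [Complex.I_ne_zero]
      apply mul_left_cancel₀ hI
      push_cast at hn ⊢
      linear_combination hn
    exact_mod_cast h2
  have hlog := log_g1
  have hpi := Real.pi_pos
  have h3 : (2 * (k : ℝ) + 1) * (Real.log (3 + g1) - Real.log (4 - g1)) = 2 * n * Real.log g1 := by
    unfold vk at h1
    have h4 : (2 * Real.log g1) ≠ 0 := by positivity
    field_simp at h1
    linear_combination h1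
  -- exponentiate
  have hg0 : 0 < g1 := by linarith
  have h4 : (3 + g1) ^ (2 * k + 1) = g1 ^ (2 * n : ℤ) * (4 - g1) ^ (2 * k + 1) := by
    have e1 : Real.log ((3 + g1) ^ (2 * k + 1)) =
        Real.log (g1 ^ (2 * n : ℤ) * (4 - g1) ^ (2 * k + 1)) := by
      rw [Real.log_mul (zpow_pos hg0 _).ne' (pow_pos (by linarith) _).ne', Real.log_pow,
        Real.log_pow, Real.log_zpow]
      push_cast
      linear_combination h3
    exact Real.log_injOn_pos (Set.mem_Ioi.2 (pow_pos (by linarith) _))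
      (Set.mem_Ioi.2 (mul_pos (zpow_pos hg0 _) (pow_pos (by linarith) _))) e1
  -- in the ring
  set r : 𝓞 K →+* ℝ := (rl D.w1).comp (algebraMap (𝓞 K) K) with hr
  have hrinj : Function.Injective r := (rl D.w1).injective.comp RingOfIntegers.coe_injective
  have hru : ∀ j : ℤ, r ((D.omU ^ j : (𝓞 K)ˣ) : 𝓞 K) = g1 ^ j := by
    intro j
    have h5 : (Units.map (r : 𝓞 K →* ℝ) D.omU : ℝ) = g1 := by
      change r D.om = g1
      exact D.rl_om
    have h6 : (Units.map (r : 𝓞 K →* ℝ) (D.omU ^ j) : ℝ) = g1 ^ j := by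
      rw [map_zpow, Units.val_zpow_eq_zpow_val, h5]
    exact h6
  have h7 : D.el ^ (2 * k + 1) = ((D.omU ^ (2 * n) : (𝓞 K)ˣ) : 𝓞 K) * D.cj D.el ^ (2 * k + 1) := by
    apply hrinj
    rw [map_pow, map_mul, map_pow, hru]
    have e1 : r D.el = 3 + g1 := D.rl_el
    have e2 : r (D.cj D.el) = 4 - g1 := D.rl_cj_el
    rw [e1, e2]
    exact h4
  have hP : (Ideal.span {D.el}).IsPrime := Ideal.isPrime_of_irreducible_absNorm (by
    rw [D.absNorm_el]
    exact (by norm_num : Nat.Prime 11))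
  have h8 : ((D.omU ^ (2 * n) : (𝓞 K)ˣ) : 𝓞 K) * D.cj D.el ^ (2 * k + 1) ∈ Ideal.span {D.el} := by
    rw [← h7]
    exact Ideal.pow_mem_of_mem _ (Ideal.mem_span_singleton_self _) _ (by omega)
  have h9 : D.cj D.el ∈ Ideal.span {D.el} := by
    rcases hP.mem_or_mem h8 with h | h
    · exact absurd (Ideal.eq_top_of_isUnit_mem _ h (Units.isUnit _)) hP.ne_top
    · exact hP.mem_of_pow_mem _ h
  have h10 : (7 : 𝓞 K) ∈ Ideal.span {D.el} := by
    have := (Ideal.span {D.el}).add_mem (Ideal.mem_span_singleton_self D.el) h9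
    have e : D.el + D.cj D.el = 7 := by
      rw [D.cj_el]
      unfold el
      push_cast
      ring
    rwa [e] at this
  have h11 : (11 : 𝓞 K) ∈ Ideal.span {D.el} := by
    have := Ideal.absNorm_mem (Ideal.span {D.el})
    rw [D.absNorm_el] at this
    exact_mod_cast this
  apply hP.ne_top
  rw [Ideal.eq_top_iff_one]
  have e : (1 : 𝓞 K) = 2 * 11 - 3 * 7 := by norm_num
  rw [e]
  exact (Ideal.span {D.el}).sub_mem (Ideal.mul_mem_left _ _ h11) (Ideal.mul_mem_left _ _ h10)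

/-! ### the central character -/

/-- at a split prime -/
lemma central_split (k : ℕ) {p : ℕ} (hp : p.Prime) (hp5 : p ≠ 5) {𝔭 : Ideal (𝓞 K)}
    (h : Ideal.absNorm 𝔭 = p) : D.psi k (Ideal.span {(p : 𝓞 K)}) = 1 := by
  have hpid := D.pid
  obtain ⟨z, rfl⟩ : ∃ z, 𝔭 = Ideal.span {z} := ⟨_, (Ideal.span_singleton_generator 𝔭).symm⟩
  obtain ⟨a, b, rfl⟩ := D.coords z
  rw [D.absNorm_co] at h
  rw [D.psi_nat]
  have h1 : c5 (p : ℤ) = 1 := by
    rw [← h, c5_natAbs, c5_per (nf_mod a b), c5_mul]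
    have h2 : ¬ (5 : ℤ) ∣ a + 3 * b := by
      intro h3
      have h4 := nf_mod a b
      have h5 : (5 : ℤ) ∣ nf a b := by
        have := dvd_add h4 (h3.mul_left (a + 3 * b))
        rwa [sub_add_cancel] at this
      have h6 : 5 ∣ p := by
        rw [← h]
        exact_mod_cast (Int.dvd_natAbs).2 h5
      exact hp5 ((Nat.prime_dvd_prime_iff_eq (by norm_num) hp).1 h6).symm
    have h3 : IsCoprime (a + 3 * b) ((5 : ℕ) : ℤ) := by
      rw [isCoprime_comm]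
      push_cast
      exact (Int.prime_iff_natAbs_prime.2 (by norm_num)).coprime_iff_not_dvd.2 h2
    unfold c5
    have := jacobiSym.sq_one (a := a + 3 * b) (b := 5)
      (by exact_mod_cast Int.isCoprime_iff_gcd_eq_one.1 h3)
    rw [← Int.cast_mul, ← pow_two, this]
    norm_num
  exact h1

/-- at an inert prime -/
lemma central_inert (k : ℕ) {p : ℕ} (hp : p.Prime) (hp5 : p ≠ 5)
    (h : (Ideal.span {(p : 𝓞 K)}).IsPrime) : D.psi k (Ideal.span {(p : 𝓞 K)}) = -1 := by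
  rw [D.psi_nat]
  by_cases h2 : p = 2
  · subst h2
    norm_num
  have hpf : Fact p.Prime := ⟨hp⟩
  have hcop : Nat.Coprime p 5 := (Nat.coprime_primes hp (by norm_num)).2 hp5
  have hsq : jacobiSym p 5 = 1 ∨ jacobiSym p 5 = -1 := jacobiSym.eq_one_or_neg_one (by
    rw [Int.gcd_natCast_natCast]
    exact hcop)
  rcases hsq with h3 | h3
  swap
  · rw [h3]; norm_num
  exfalso
  have hodd : Odd p := hp.odd_of_ne_two h2
  have e5 := jacobiSym.quadratic_reciprocity_one_mod_four (a := 5) (b := p) (by norm_num) hodd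
  rw [h3, ← jacobiSym.legendreSym.to_jacobiSym] at e5
  have h50 : (((5 : ℕ) : ℤ) : ZMod p) ≠ 0 := by
    intro h4
    have h4' : ((5 : ℕ) : ZMod p) = 0 := by exact_mod_cast h4
    rw [ZMod.natCast_eq_zero_iff] at h4'
    exact hp5 ((Nat.prime_dvd_prime_iff_eq hp (by norm_num)).1 h4')
  have h6 := (legendreSym.eq_one_iff p h50).1 e5
  obtain ⟨y, hy⟩ := h6
  obtain ⟨t, ht⟩ := ZMod.intCast_surjective y
  have h7 : (p : ℤ) ∣ t ^ 2 - 5 := by
    rw [← ZMod.intCast_zmod_eq_zero_iff_dvd]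
    push_cast
    rw [ht]
    push_cast at hy
    rw [hy]
    ring
  obtain ⟨c, hc⟩ := h7
  have h8 : ((t + 1 : ℤ) + (-2 : ℤ) * D.om : 𝓞 K) * ((t - 1 : ℤ) + (2 : ℤ) * D.om) ∈
      Ideal.span {(p : 𝓞 K)} := by
    rw [Ideal.mem_span_singleton']
    refine ⟨(c : 𝓞 K), ?_⟩
    have h9 : (t : 𝓞 K) ^ 2 - 5 = p * c := by exact_mod_cast congrArg (Int.cast : ℤ → 𝓞 K) hc
    have := D.om_sq
    push_cast
    linear_combination -h9 + 4 * this
  have hp2 : ¬ (p : ℤ) ∣ 2 := by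
    intro h9
    have h10 : p ∣ 2 := by exact_mod_cast h9
    exact h2 ((Nat.prime_dvd_prime_iff_eq hp Nat.prime_two).1 h10)
  rcases h.mem_or_mem h8 with h9 | h9
  · rw [D.mem_span_nat] at h9
    exact hp2 ((Int.dvd_neg).1 h9.2)
  · rw [D.mem_span_nat] at h9
    exact hp2 h9.2

end QF

end Pool.Agent.U283.GF
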