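import Pool.Agent.U283.GF.Kf2

/-! # The Hecke character of `ℚ(√5)` of conductor `(√5)` -/

set_option autoImplicit false
set_option linter.unusedSectionVars false

open NumberField Module Complex

namespace Pool.Agent.U283.GF

open Pool.Agent.Y773 Pool.Agent.Y767

theorem exists_ideal_hom {R : Type*} [CommRing R] [IsDomain R] [IsPrincipalIdealRing R]
    (f : R →*₀ ℂ) (hf : ∀ u : Rˣ, f (u : R) = 1) :
    ∃ ψ : Ideal R →*₀ ℂ, ∀ x, ψ (Ideal.span {x}) = f x := by
  have key : ∀ x y : R, Ideal.span {x} = Ideal.span {y} → f x = f y := by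
    intro x y h
    obtain ⟨u, hu⟩ := Ideal.span_singleton_eq_span_singleton.1 h
    rw [← hu, map_mul, hf, mul_one]
  have hgen : ∀ x : R, f (Submodule.IsPrincipal.generator (Ideal.span {x})) = f x := fun x =>
    key _ _ (Ideal.span_singleton_generator _)
  refine ⟨⟨⟨fun I => f (Submodule.IsPrincipal.generator I), ?_⟩, ?_, ?_⟩, fun x => hgen x⟩
  · have : (0 : Ideal R) = Ideal.span {0} := by
      rw [Ideal.zero_eq_bot, eq_comm, Ideal.span_singleton_eq_bot]
    rw [this, hgen, map_zero]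
  · change f (Submodule.IsPrincipal.generator (1 : Ideal R)) = 1
    have : (1 : Ideal R) = Ideal.span {1} := by rw [Ideal.span_singleton_one, Ideal.one_eq_top]
    rw [this, hgen, map_one]
  · intro I J
    change f (Submodule.IsPrincipal.generator (I * J)) = f (Submodule.IsPrincipal.generator I) *
      f (Submodule.IsPrincipal.generator J)
    rw [← map_mul]
    refine key _ _ ?_
    rw [Ideal.span_singleton_generator, ← Ideal.span_singleton_mul_span_singleton,
      Ideal.span_singleton_generator, Ideal.span_singleton_generator]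

variable {K : Type} [Field K] [NumberField K] [IsTotallyReal K] (D : QF K)

namespace QF

open Classical in
/-- the infinity type `(v, -v)` -/
noncomputable def nu (v : ℝ) : InfinitePlace K → ℝ := fun w => if w = D.w1 then v else -v

lemma nu1 (v : ℝ) : D.nu v D.w1 = v := by simp [nu]

lemma nu2 (v : ℝ) : D.nu v D.w2 = -v := by simp [nu, D.ne.symm]

lemma sum_nu (v : ℝ) : ∑ w, D.nu v w = 0 := by rw [D.sum_eq, D.nu1, D.nu2]; ring

lemma ax_eq (v : ℝ) (x : K) : ax (D.nu v) x =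
    cexp (I * ((v * (Real.log (D.w1 x) - Real.log (D.w2 x)) : ℝ) : ℂ)) := by
  unfold ax
  rw [D.sum_eq, D.nu1, D.nu2]
  congr 3
  ring

/-- the spectral parameter -/
noncomputable def vk (k : ℕ) : ℝ := (2 * k + 1) * Real.pi / (2 * Real.log g1)

lemma log_g1 : 0 < Real.log g1 := Real.log_pos one_lt_g1

lemma vk_pos (k : ℕ) : 0 < vk k := by
  unfold vk
  have := log_g1
  have := Real.pi_pos
  positivity

lemma ax_om (k : ℕ) : ax (D.nu (vk k)) ((D.om : 𝓞 K) : K) = -1 := by
  rw [D.ax_eq, ← abs_rl, ← abs_rl, D.rl_om, D.rl_om2]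
  have hg0 : 0 < g1 := lt_trans zero_lt_one one_lt_g1
  have h2 : |g2| = g1⁻¹ := by
    have h3 : |g1| * |g2| = 1 := by rw [← abs_mul, g_mul]; norm_num
    rw [abs_of_pos hg0] at h3
    exact eq_inv_of_mul_eq_one_right h3
  rw [h2, abs_of_pos hg0, Real.log_inv, sub_neg_eq_add]
  have h4 : vk k * (Real.log g1 + Real.log g1) = (2 * k + 1) * Real.pi := by
    unfold vk
    have := log_g1.ne'
    field_simp
    ring
  rw [h4]
  have h5 : I * (((2 * k + 1) * Real.pi : ℝ) : ℂ) = Real.pi * I + (k : ℕ) * (2 * Real.pi * I) := by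
    push_cast
    ring
  rw [h5, Complex.exp_add, Complex.exp_nat_mul_two_pi_mul_I, mul_one, Complex.exp_pi_mul_I]

lemma ax_neg_one (ν : InfinitePlace K → ℝ) : ax ν (-1 : K) = 1 := by
  unfold ax
  have : ∀ w : InfinitePlace K, w (-1 : K) = 1 := fun w => by
    rw [← abs_rl, map_neg, map_one]
    norm_num
  simp [this]

/-- the function on the elements -/
noncomputable def fE (k : ℕ) : 𝓞 K →*₀ ℂ where
  toFun z := D.cr z * ax (D.nu (vk k)) (z : K)
  map_zero' := by
    have h : D.cr 0 = 0 := by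
      have := D.cr_int 0
      rw [Int.cast_zero] at this
      rw [this, c5_eq_zero_iff]
      norm_num
    rw [h, zero_mul]
  map_one' := by
    have : ((1 : 𝓞 K) : K) = 1 := map_one _
    rw [D.cr_one, this, ax_one, one_mul]
  map_mul' x y := by
    have h : D.cr 0 = 0 := by
      have := D.cr_int 0
      rw [Int.cast_zero] at this
      rw [this, c5_eq_zero_iff]
      norm_num
    rcases eq_or_ne x 0 with rfl | hx
    · rw [zero_mul, h, zero_mul, zero_mul]
    rcases eq_or_ne y 0 with rfl | hy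
    · rw [mul_zero, h, zero_mul, mul_zero]
    rw [D.cr_mul, ax_coe_mul _ hx hy]
    ring

lemma fE_apply (k : ℕ) (z : 𝓞 K) : D.fE k z = D.cr z * ax (D.nu (vk k)) (z : K) := rfl

lemma fE_unit (k : ℕ) (u : (𝓞 K)ˣ) : D.fE k (u : 𝓞 K) = 1 := by
  refine D.unit_triv ((D.fE k : 𝓞 K →*₀ ℂ) : 𝓞 K →* ℂ) ?_ ?_ u
  · change D.fE k D.om = 1
    rw [D.fE_apply, D.cr_om, D.ax_om]
    norm_num
  · change D.fE k (-1) = 1
    have : (((-1 : 𝓞 K)) : K) = -1 := by
      have : (((-1 : 𝓞 K)) : K) = algebraMap (𝓞 K) K (-1) := rfl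
      rw [this, map_neg, map_one]
    rw [D.fE_apply, D.cr_neg_one, this, ax_neg_one, one_mul]

theorem exists_psi (k : ℕ) : ∃ ψ : Ideal (𝓞 K) →*₀ ℂ, ∀ z : 𝓞 K,
    ψ (Ideal.span {z}) = D.cr z * ax (D.nu (vk k)) (z : K) := by
  have := D.pid
  exact exists_ideal_hom (D.fE k) (D.fE_unit k)

/-- the Hecke character -/
noncomputable def psi (k : ℕ) : Ideal (𝓞 K) →*₀ ℂ := (D.exists_psi k).choose

lemma psi_span (k : ℕ) (z : 𝓞 K) : D.psi k (Ideal.span {z}) = D.cr z * ax (D.nu (vk k)) (z : K) :=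
  (D.exists_psi k).choose_spec z

lemma rt_bot : Ideal.span {D.rt} ≠ ⊥ := by
  rw [Ne, Ideal.span_singleton_eq_bot]
  exact D.rt_ne

lemma rt_prime : (Ideal.span {D.rt}).IsPrime := Ideal.isPrime_of_irreducible_absNorm (by
  rw [D.absNorm_rt]
  exact Nat.prime_five)

lemma rt_max : (Ideal.span {D.rt}).IsMaximal := D.rt_prime.isMaximal D.rt_bot

theorem psi_hecke (k : ℕ) : IsHecke K (Ideal.span {D.rt}) (D.nu (vk k)) (D.psi k) := by
  have hpid := D.pid
  refine ⟨⟨D.rt_bot, fun 𝔞 h𝔞 => ?_, fun x hx hpos => ?_⟩, fun 𝔤 h1 h2 => ?_⟩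
  · obtain ⟨z, rfl⟩ : ∃ z, 𝔞 = Ideal.span {z} :=
      ⟨_, (Ideal.span_singleton_generator 𝔞).symm⟩
    rw [D.psi_span, mul_ne_zero_iff, D.cr_ne_zero_iff]
    have h3 := ax_ne (D.nu (vk k)) ((z : 𝓞 K) : K)
    have h4 : z ∉ Ideal.span {D.rt} ↔ IsCoprime (Ideal.span {z}) (Ideal.span {D.rt}) := by
      rw [Y772.SG.coprime_iff]
      constructor
      · intro h
        obtain ⟨a, b, rfl⟩ := D.coords z
        rw [D.mem_rt] at h
        have h5 : IsCoprime (a + 3 * b) (5 : ℤ) := by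
          rw [isCoprime_comm]
          exact (Int.prime_iff_natAbs_prime.2 (by norm_num)).coprime_iff_not_dvd.2 h
        obtain ⟨n, m, hnm⟩ := h5
        refine ⟨(n : 𝓞 K), ?_⟩
        have h6 : (a + b * D.om) * (n : 𝓞 K) - 1 = ((a * n - 1 : ℤ) : 𝓞 K) +
            ((b * n : ℤ) : 𝓞 K) * D.om := by push_cast; ring
        rw [h6, D.mem_rt]
        exact ⟨-m, by linear_combination hnm⟩
      · rintro ⟨w, hw⟩
        rw [← D.cr_ne_zero_iff]
        have h5 := D.cr_congr hw
        rw [D.cr_mul, D.cr_one] at h5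
        intro h6
        rw [h6, zero_mul] at h5
        exact zero_ne_one h5
    rw [h4]
    exact ⟨fun h => h.1, fun h => ⟨h, h3⟩⟩
  · rw [D.psi_span, D.cr_congr hx, D.cr_one, one_mul]
  · have h3 : 𝔤 = ⊤ := by
      by_contra h
      exact h2 (D.rt_max.eq_of_le h (Ideal.dvd_iff_le.1 h1)).symm
    have h22 : ((2 : 𝓞 K) : K) = 2 := map_ofNat (algebraMap (𝓞 K) K) 2
    refine ⟨2, by rw [h3]; trivial, fun σ => ?_, ?_, ?_⟩
    · rw [h22, map_ofNat]
      norm_num
    · rw [Y772.SG.coprime_iff]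
      refine ⟨3, ?_⟩
      have h6 : (2 : 𝓞 K) * 3 - 1 = ((5 : ℤ) : 𝓞 K) + ((0 : ℤ) : 𝓞 K) * D.om := by
        push_cast; ring
      rw [h6, D.mem_rt]
      norm_num
    · rw [D.psi_span, D.cr_two]
      intro h4
      have h5 := ax_ne (D.nu (vk k)) ((2 : 𝓞 K) : K)
      have h6 : 2 * ax (D.nu (vk k)) ((2 : 𝓞 K) : K) = 0 := by linear_combination -h4
      rcases mul_eq_zero.1 h6 with h7 | h7
      · norm_num at h7
      · exact h5 h7

/-- the value at natural numbers -/
lemma ax_nat (v : ℝ) (n : ℕ) : ax (D.nu v) (n : K) = 1 := by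
  rw [D.ax_eq, ← abs_rl, ← abs_rl, map_natCast, map_natCast, sub_self, mul_zero]
  simp

lemma psi_nat (k n : ℕ) : D.psi k (Ideal.span {(n : 𝓞 K)}) = ((jacobiSym n 5 : ℤ) : ℂ) := by
  have h : (((n : ℕ) : 𝓞 K) : K) = (n : K) := map_natCast (algebraMap (𝓞 K) K) n
  rw [D.psi_span, h, D.ax_nat, mul_one]
  have := D.cr_int n
  rw [Int.cast_natCast] at this
  rw [this]
  rfl

end QF

end Pool.Agent.U283.GF
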