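import Pool.Agent.U283.GF.Van

/-! # Real primitive characters whose conductor is divisible by `5` -/

set_option autoImplicit false
set_option linter.unusedSectionVars false

open Complex

namespace Pool.Agent.U283.GF

lemma ft_iff {q d : ℕ} [NeZero q] (hd : d ∣ q) (χ : DirichletCharacter ℂ q) :
    χ.FactorsThrough d ↔ ∀ n : ℤ, IsCoprime n q → (d : ℤ) ∣ n - 1 → χ (n : ZMod q) = 1 := by
  rw [DirichletCharacter.factorsThrough_iff_ker_unitsMap hd]
  constructor
  · intro h n hn h1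
    have hu : ZMod.unitOfIsCoprime n hn ∈ (ZMod.unitsMap hd).ker := by
      rw [MonoidHom.mem_ker]
      apply Units.ext
      rw [ZMod.unitsMap_val, ZMod.coe_unitOfIsCoprime, Units.val_one, ZMod.cast_intCast hd]
      have : ((1 : ℤ) : ZMod d) = (n : ZMod d) := (ZMod.intCast_eq_intCast_iff_dvd_sub _ _ _).2 h1
      rw [← this, Int.cast_one]
    have h2 := h hu
    rw [MonoidHom.mem_ker] at h2
    have h3 := congrArg Units.val h2
    rw [MulChar.coe_toUnitHom, ZMod.coe_unitOfIsCoprime, Units.val_one] at h3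
    exact h3
  · intro h u hu
    rw [MonoidHom.mem_ker] at hu ⊢
    obtain ⟨t, ht⟩ := ZMod.intCast_surjective (u : ZMod q)
    have hcop : IsCoprime t q := by
      by_contra hc
      have h1 := (DirichletCharacter.apply_eq_zero_iff (R := ℂ) (χ := 1) t).2 hc
      rw [ht] at h1
      have h2 : (1 : DirichletCharacter ℂ q) (u : ZMod q) = 1 := MulChar.one_apply_coe u
      rw [h2] at h1
      exact one_ne_zero h1
    have h2 := congrArg Units.val hu
    rw [ZMod.unitsMap_val, ← ht, Units.val_one] at h2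
    have h3 : ((t : ZMod q).cast : ZMod d) = (t : ZMod d) := ZMod.cast_intCast hd t
    rw [h3] at h2
    have h4 : (((1 : ℤ)) : ZMod d) = ((t : ℤ) : ZMod d) := by rw [h2]; simp
    have h5 := h t hcop ((ZMod.intCast_eq_intCast_iff_dvd_sub _ _ _).1 h4)
    apply Units.ext
    rw [MulChar.coe_toUnitHom, ← ht, h5, Units.val_one]

/-- the quadratic character modulo `5` as a Dirichlet character -/
lemma exists_chi5 : ∃ χ : DirichletCharacter ℂ 5, ∀ n : ℤ, χ (n : ZMod 5) = c5 n := by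
  have : Fact (Nat.Prime 5) := ⟨by norm_num⟩
  refine ⟨(quadraticChar (ZMod 5)).ringHomComp (Int.castRingHom ℂ), fun n => ?_⟩
  unfold c5
  rw [← jacobiSym.legendreSym.to_jacobiSym]
  rfl

lemma chi_sq {q : ℕ} {χ : DirichletCharacter ℂ q} (h2 : χ ^ 2 = 1) {n : ℤ} (hn : IsCoprime n q) :
    χ (n : ZMod q) * χ (n : ZMod q) = 1 := by
  have h3 := congrArg (fun ψ : DirichletCharacter ℂ q => ψ ((ZMod.unitOfIsCoprime n hn : (ZMod q)ˣ) : ZMod q)) h2
  simp only [pow_two, MulChar.mul_apply, MulChar.one_apply_coe] at h3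
  rw [ZMod.coe_unitOfIsCoprime] at h3
  exact h3

lemma chi_congr {q : ℕ} (χ : DirichletCharacter ℂ q) {a b : ℤ} (h : (q : ℤ) ∣ a - b) :
    χ (a : ZMod q) = χ (b : ZMod q) := by
  congr 1
  exact ((ZMod.intCast_eq_intCast_iff_dvd_sub _ _ _).2 h).symm

theorem not_dvd {m : ℕ} (hm : 0 < m) {χ : DirichletCharacter ℂ (5 * m)} (hχ : χ.IsPrimitive)
    (h2 : χ ^ 2 = 1) : ¬ 5 ∣ m := by
  intro h5
  obtain ⟨t, ht1, ht2, ht3⟩ := Y772.TW.prim_char (p := 5) (by norm_num) hm χ hχ
  have : NeZero (5 * m) := ⟨by omega⟩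
  obtain ⟨s, hs⟩ := ht1
  obtain ⟨l, hl⟩ := h5
  have h3 : ((5 * m : ℕ) : ℤ) ∣ t ^ 5 - 1 := by
    have ht : t = 1 + m * s := by linarith
    have hm' : (m : ℤ) = 5 * l := by exact_mod_cast hl
    refine ⟨s * (1 + 2 * m * s + 2 * m ^ 2 * s ^ 2 + m ^ 3 * s ^ 3 + m ^ 3 * l * s ^ 4), ?_⟩
    rw [ht]
    push_cast
    rw [hm']
    ring
  have h4 : χ (t : ZMod (5 * m)) ^ 5 = 1 := by
    rw [← map_pow]
    have := chi_congr χ (b := 1) h3
    push_cast at this
    rw [this, map_one]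
  have hcop : IsCoprime t ((5 * m : ℕ) : ℤ) := by
    have := (ZMod.coe_int_isUnit_iff_isCoprime t (5 * m)).1 ht2
    exact this.symm
  have h6 := chi_sq h2 hcop
  apply ht3
  calc χ (t : ZMod (5 * m)) = χ (t : ZMod (5 * m)) *
        ((χ (t : ZMod (5 * m)) * χ (t : ZMod (5 * m))) * (χ (t : ZMod (5 * m)) * χ (t : ZMod (5 * m)))) := by
          rw [h6]; ring
    _ = χ (t : ZMod (5 * m)) ^ 5 := by ring
    _ = 1 := h4

/-- the component at `5` -/
theorem comp5 {m : ℕ} (hm : 0 < m) (h5 : ¬ 5 ∣ m) {χ : DirichletCharacter ℂ (5 * m)}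
    (hχ : χ.IsPrimitive) (h2 : χ ^ 2 = 1) {n : ℤ} (hn : IsCoprime n ((5 * m : ℕ) : ℤ))
    (hn1 : (m : ℤ) ∣ n - 1) : χ (n : ZMod (5 * m)) = c5 n := by
  obtain ⟨t, ht1, ht2, ht3⟩ := Y772.TW.prim_char (p := 5) (by norm_num) hm χ hχ
  have htcop : IsCoprime t ((5 * m : ℕ) : ℤ) :=
    ((ZMod.coe_int_isUnit_iff_isCoprime t (5 * m)).1 ht2).symm
  have h5Z : ¬ (5 : ℤ) ∣ (m : ℤ) := fun h => h5 (by exact_mod_cast h)
  have hcop : IsCoprime (5 : ℤ) (m : ℤ) :=
    (Int.prime_iff_natAbs_prime.2 (by norm_num)).coprime_iff_not_dvd.2 h5Z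
  obtain ⟨u, v, huv⟩ := hcop
  set g : ℤ := 1 + v * m with hg
  have hgm : (m : ℤ) ∣ g - 1 := ⟨v, by rw [hg]; ring⟩
  have hg5 : (5 : ℤ) ∣ g - 2 := ⟨-u, by rw [hg]; linear_combination huv⟩
  have hgcop : IsCoprime g ((5 * m : ℕ) : ℤ) := by
    push_cast
    refine IsCoprime.mul_right ?_ ?_
    · rw [isCoprime_comm]
      refine (Int.prime_iff_natAbs_prime.2 (by norm_num)).coprime_iff_not_dvd.2 fun h => ?_
      omega
    · obtain ⟨k, hk⟩ := hgm
      exact ⟨1, -k, by linear_combination hk⟩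
  have hgs := chi_sq h2 hgcop
  -- powers of `g`
  have hpow : ∀ n : ℤ, IsCoprime n ((5 * m : ℕ) : ℤ) → (m : ℤ) ∣ n - 1 →
      ∃ j : ℕ, χ (n : ZMod (5 * m)) = χ (g : ZMod (5 * m)) ^ j ∧ c5 n = (-1) ^ j := by
    intro n hn hn1
    have key : ∀ j : ℕ, (5 : ℤ) ∣ n - 2 ^ j → ∃ j : ℕ, χ (n : ZMod (5 * m)) =
        χ (g : ZMod (5 * m)) ^ j ∧ c5 n = (-1) ^ j := by
      intro j hj
      refine ⟨j, ?_, ?_⟩
      · rw [← map_pow, ← Int.cast_pow]
        refine chi_congr χ ?_
        push_cast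
        have h7 : (m : ℤ) ∣ n - g ^ j := by
          have h8 : (m : ℤ) ∣ g ^ j - 1 := by
            have := sub_dvd_pow_sub_pow g 1 j
            rw [one_pow] at this
            exact hgm.trans this
          have := dvd_sub hn1 h8
          have e : n - 1 - (g ^ j - 1) = n - g ^ j := by ring
          rwa [e] at this
        have h9 : (5 : ℤ) ∣ n - g ^ j := by
          have h8 : (5 : ℤ) ∣ g ^ j - 2 ^ j := hg5.trans (sub_dvd_pow_sub_pow g 2 j)
          have := dvd_sub hj h8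
          have e : n - 2 ^ j - (g ^ j - 2 ^ j) = n - g ^ j := by ring
          rwa [e] at this
        exact IsCoprime.mul_dvd ⟨u, v, huv⟩ h9 h7
      · rw [c5_per hj]
        have h2' : c5 2 = -1 := by unfold c5; norm_num
        induction j with
        | zero => unfold c5; simp
        | succ j ih =>
          have : ∀ j : ℕ, c5 (2 ^ j) = (-1) ^ j := by
            intro j
            induction j with
            | zero => unfold c5; simp
            | succ j ih => rw [pow_succ, c5_mul, ih, h2', pow_succ]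
          exact this _
    have h10 : ¬ (5 : ℤ) ∣ n := by
      intro h
      have h11 : (5 : ℤ) ∣ ((5 * m : ℕ) : ℤ) := ⟨m, by push_cast; ring⟩
      have := hn.isUnit_of_dvd' h h11
      rw [Int.isUnit_iff] at this
      omega
    have h12 : (5 : ℤ) ∣ n - 1 ∨ (5 : ℤ) ∣ n - 2 ∨ (5 : ℤ) ∣ n - 3 ∨ (5 : ℤ) ∣ n - 4 := by omega
    rcases h12 with h | h | h | h
    · exact key 0 (by simpa using h)
    · exact key 1 (by simpa using h)
    · exact key 3 (by omega)
    · exact key 2 (by omega)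
  have hgv : χ (g : ZMod (5 * m)) = -1 := by
    rcases mul_self_eq_one_iff.1 hgs with h | h
    · obtain ⟨j, hj, -⟩ := hpow t htcop ht1
      rw [h, one_pow] at hj
      exact absurd hj ht3
    · exact h
  obtain ⟨j, h6, h7⟩ := hpow n hn hn1
  rw [h6, h7, hgv]

/-- **the reduction** -/
theorem red {q : ℕ} [NeZero q] {χ : DirichletCharacter ℂ q} (hχ : χ.IsPrimitive)
    (h2 : χ ^ 2 = 1) (hq : 5 ∣ q) : ∃ (m : ℕ) (χ' : DirichletCharacter ℂ m), q = 5 * m ∧
      0 < m ∧ Nat.Coprime m 5 ∧ χ'.IsPrimitive ∧ χ' ^ 2 = 1 ∧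
      ∀ n : ℤ, χ (n : ZMod q) = c5 n * χ' (n : ZMod m) := by
  obtain ⟨m, rfl⟩ := hq
  have hm : 0 < m := by
    have := NeZero.ne (5 * m)
    omega
  have : NeZero m := ⟨hm.ne'⟩
  have h5 := not_dvd hm hχ h2
  obtain ⟨χ5, hχ5⟩ := exists_chi5
  have hd5 : 5 ∣ 5 * m := Dvd.intro m rfl
  have hdm : m ∣ 5 * m := Dvd.intro_left 5 rfl
  set θ : DirichletCharacter ℂ (5 * m) := χ * DirichletCharacter.changeLevel hd5 χ5 with hθ
  have hθv : ∀ n : ℤ, IsCoprime n ((5 * m : ℕ) : ℤ) → θ (n : ZMod (5 * m)) =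
      χ (n : ZMod (5 * m)) * c5 n := by
    intro n hn
    rw [hθ, MulChar.mul_apply]
    congr 1
    rw [DirichletCharacter.changeLevel_eq_cast_of_dvd' χ5 hd5 hn, hχ5]
  have h5cop : IsCoprime (m : ℤ) (5 : ℤ) := by
    rw [isCoprime_comm]
    exact (Int.prime_iff_natAbs_prime.2 (by norm_num)).coprime_iff_not_dvd.2 fun h =>
      h5 (by exact_mod_cast h)
  have hc5sq : ∀ n : ℤ, IsCoprime n ((5 * m : ℕ) : ℤ) → c5 n * c5 n = 1 := by
    intro n hn
    have hn5 : IsCoprime n ((5 : ℕ) : ℤ) := by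
      push_cast at hn ⊢
      exact hn.of_mul_right_left
    unfold c5
    have := jacobiSym.sq_one (a := n) (b := 5) (by exact_mod_cast Int.isCoprime_iff_gcd_eq_one.1 hn5)
    rw [← Int.cast_mul, ← pow_two, this]
    norm_num
  have hFT : θ.FactorsThrough m := by
    rw [ft_iff hdm]
    intro n hn hn1
    rw [hθv n hn, comp5 hm h5 hχ h2 hn hn1]
    exact hc5sq n hn
  have hθeq := hFT.eq_changeLevel
  set χ' := hFT.χ₀ with hχ'
  have hval0 : ∀ n : ℤ, IsCoprime n ((5 * m : ℕ) : ℤ) → χ (n : ZMod (5 * m)) =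
      c5 n * χ' (n : ZMod m) := by
    intro n hn
    have h6 := hθv n hn
    rw [hθeq, DirichletCharacter.changeLevel_eq_cast_of_dvd' χ' hdm hn] at h6
    rw [h6]
    linear_combination (-χ (n : ZMod (5 * m))) * hc5sq n hn
  have hval : ∀ n : ℤ, χ (n : ZMod (5 * m)) = c5 n * χ' (n : ZMod m) := by
    intro n
    by_cases hn : IsCoprime n ((5 * m : ℕ) : ℤ)
    · exact hval0 n hn
    · rw [(DirichletCharacter.apply_eq_zero_iff (χ := χ) n).2 hn]
      by_cases hn5 : (5 : ℤ) ∣ n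
      · rw [(QF.c5_eq_zero_iff n).2 hn5, zero_mul]
      · have hnm : ¬ IsCoprime n (m : ℤ) := by
          intro h
          apply hn
          push_cast
          refine IsCoprime.mul_right ?_ h
          rw [isCoprime_comm]
          exact (Int.prime_iff_natAbs_prime.2 (by norm_num)).coprime_iff_not_dvd.2 hn5
        rw [(DirichletCharacter.apply_eq_zero_iff (χ := χ') n).2 hnm, mul_zero]
  have hχ'2 : χ' ^ 2 = 1 := by
    apply DirichletCharacter.changeLevel_injective (R := ℂ) hdm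
    rw [map_pow, ← hθeq, map_one, hθ, mul_pow, h2, one_mul, ← map_pow]
    have h6 : χ5 ^ 2 = 1 := by
      apply MulChar.ext
      intro a
      obtain ⟨n, hn⟩ := ZMod.intCast_surjective (a : ZMod 5)
      rw [pow_two, MulChar.mul_apply, MulChar.one_apply_coe, ← hn, hχ5]
      have hn5 : IsCoprime n ((5 : ℕ) : ℤ) := by
        have : IsUnit ((n : ℤ) : ZMod 5) := by rw [hn]; exact a.isUnit
        exact ((ZMod.coe_int_isUnit_iff_isCoprime n 5).1 this).symm
      unfold c5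
      have := jacobiSym.sq_one (a := n) (b := 5) (by exact_mod_cast Int.isCoprime_iff_gcd_eq_one.1 hn5)
      rw [← Int.cast_mul, ← pow_two, this]
      norm_num
    rw [h6, map_one]
  refine ⟨m, χ', rfl, hm, ?_, ?_, hχ'2, hval⟩
  · rw [Nat.coprime_comm]
    exact (Nat.Prime.coprime_iff_not_dvd (by norm_num)).2 h5
  · -- primitivity
    have hc := χ'.factorsThrough_conductor
    have hcd := χ'.conductor_dvd_level
    set d := χ'.conductor with hd
    have hFT5 : χ.FactorsThrough (5 * d) := by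
      rw [ft_iff (Nat.mul_dvd_mul_left 5 hcd)]
      intro n hn hn1
      have hnm : IsCoprime n (m : ℤ) := by
        push_cast at hn
        exact hn.of_mul_right_right
      have h6 := (ft_iff hcd χ').1 hc n hnm (Dvd.dvd.trans ⟨5, by push_cast; ring⟩ hn1)
      have h7 : c5 n = 1 := by
        rw [c5_per (y := 1) (Dvd.dvd.trans ⟨d, by push_cast; ring⟩ hn1)]
        unfold c5
        simp
      rw [hval, h6, h7, one_mul]
    have h8 : χ.conductor ≤ 5 * d := Nat.sInf_le hFT5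
    rw [hχ] at h8
    have h9 := Nat.le_of_dvd hm hcd
    change χ'.conductor = m
    omega

end Pool.Agent.U283.GF
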