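import Pool.Agent.U283.GF.Sq

set_option autoImplicit false

open Finset Complex

namespace Pool.Agent.U283.GF

lemma Sn_pe {q : ℕ} (hq : 0 < q) (t a : ℤ) : Pe q fun b => ec q (t * nf a b) := by
  intro x y h
  refine ec_per hq ?_
  rw [← mul_sub]
  exact (nf_pe (by simp) h).mul_left t

lemma Sn_pe' {q : ℕ} (hq : 0 < q) (t b : ℤ) : Pe q fun a => ec q (t * nf a b) := by
  intro x y h
  refine ec_per hq ?_
  rw [← mul_sub]
  exact (nf_pe h (by simp)).mul_left t

lemma Pe.sr {q r : ℕ} {f : ℤ → ℤ → ℂ} (h : ∀ y, Pe q (fun x => f x y)) :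
    Pe q fun x => sr r (fun y => f x y) := by
  intro x y hxy
  exact sr_congr fun z => h z x y hxy

theorem Sn_crt {m n : ℕ} [NeZero m] [NeZero n] (h : Nat.Coprime m n) (t : ℤ) :
    Sn (m * n) t = Sn m (t * n) * Sn n (t * m) := by
  have hm : 0 < m := Nat.pos_of_ne_zero (NeZero.ne m)
  have hn : 0 < n := Nat.pos_of_ne_zero (NeZero.ne n)
  have hmn : 0 < m * n := Nat.mul_pos hm hn
  unfold Sn
  rw [sr_crt h (Pe.sr fun y => Sn_pe' hmn t y)]
  have e1 : ∀ x y : ℤ, sr (m * n) (fun b => ec (m * n) (t * nf (n * x + m * y) b)) =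
      sr m (fun x2 => sr n (fun y2 => ec m (t * n * nf x x2) * ec n (t * m * nf y y2))) := by
    intro x y
    rw [sr_crt h (Sn_pe hmn t _)]
    refine sr_congr fun x2 => sr_congr fun y2 => ?_
    have e2 : ec (m * n) (t * nf (n * x + m * y) (n * x2 + m * y2)) =
        ec (m * n) (n * (t * n * nf x x2) + m * (t * m * nf y y2)) := by
      refine ec_per hmn ⟨t * (2 * x * y + x * y2 + y * x2 - 2 * x2 * y2), ?_⟩
      unfold nf
      push_cast
      ring
    rw [e2, ec_add, ec_mul_mul hm, mul_comm m n, ec_mul_mul hn]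
  simp_rw [e1]
  have e3 : ∀ x y : ℤ, sr m (fun x2 => sr n (fun y2 => ec m (t * n * nf x x2) *
      ec n (t * m * nf y y2))) = sr m (fun x2 => ec m (t * n * nf x x2)) *
        sr n (fun y2 => ec n (t * m * nf y y2)) := by
    intro x y
    simp_rw [sr_mul_left]
    unfold sr
    rw [sum_mul]
  simp_rw [e3]
  simp_rw [sr_mul_left]
  unfold sr
  rw [sum_mul]

lemma sr_multiples (p M : ℕ) (hp : 0 < p) (g : ℤ → ℂ) :
    sr (p * M) (fun a => if (p : ℤ) ∣ a then g a else 0) = sr M (fun x => g (p * x)) := by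
  unfold sr
  rw [← sum_filter]
  symm
  refine sum_nbij (fun x => p * x) ?_ ?_ ?_ ?_
  · intro x hx
    simp only [mem_filter, mem_range] at hx ⊢
    exact ⟨Nat.mul_lt_mul_of_pos_left hx hp, ⟨x, by push_cast; ring⟩⟩
  · intro x _ y _ hxy
    exact Nat.eq_of_mul_eq_mul_left hp hxy
  · intro y hy
    simp only [coe_filter, mem_range, Set.mem_ofPred_eq] at hy
    obtain ⟨hy1, hy2⟩ := hy
    have hy3 : p ∣ y := by exact_mod_cast hy2
    obtain ⟨x, rfl⟩ := hy3
    refine ⟨x, ?_, rfl⟩
    simp only [coe_range, Set.mem_Iio]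
    exact Nat.lt_of_mul_lt_mul_left hy1
  · intro x _
    push_cast
    rfl

theorem Sn_prime_rec {p : ℕ} (hp : p.Prime) (hp5 : p ≠ 5) {t : ℤ} (ht : ¬ (p : ℤ) ∣ t) (n : ℕ) :
    Sn (p ^ (n + 2)) t = (p : ℂ) ^ 2 * Sn (p ^ n) t := by
  have hp0 : 0 < p := hp.pos
  set M : ℕ := p ^ (n + 1) with hM
  have hM0 : 0 < M := pow_pos hp0 _
  have hq : p ^ (n + 2) = p * M := by rw [hM]; ring
  have hq0 : 0 < p * M := Nat.mul_pos hp0 hM0
  have : NeZero (p * M) := ⟨hq0.ne'⟩
  have hpZ : Prime (p : ℤ) := Nat.prime_iff_prime_int.1 hp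
  rw [hq]
  -- shifting
  have h1 : ∀ h k : ℤ, Sn (p * M) t = sr (p * M) fun a => sr (p * M) fun b =>
      ec (p * M) (t * nf (a + M * h) (b + M * k)) := by
    intro h k
    unfold Sn
    rw [← sr_shift (Pe.sr fun y => Sn_pe' hq0 t y) (M * h)]
    refine sr_congr fun a => ?_
    rw [← sr_shift (Sn_pe hq0 t _) (M * k)]
  have h2 : ∀ a b h k : ℤ, ec (p * M) (t * nf (a + M * h) (b + M * k)) =
      ec (p * M) (t * nf a b) * (ec p (t * (2 * a + b) * h) * ec p (t * (a - 2 * b) * k)) := by
    intro a b h k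
    have e2 : ec (p * M) (t * nf (a + M * h) (b + M * k)) = ec (p * M) (t * nf a b +
        M * (t * (2 * a + b) * h + t * (a - 2 * b) * k)) := by
      refine ec_per hq0 ?_
      have : ((p * M : ℕ) : ℤ) ∣ (M : ℤ) * M := by
        rw [hM]
        refine ⟨(p : ℤ) ^ n, ?_⟩
        push_cast
        ring
      obtain ⟨k0, hk0⟩ := this
      refine ⟨k0 * (t * nf h k), ?_⟩
      have e3 : t * nf (a + M * h) (b + M * k) - (t * nf a b +
        M * (t * (2 * a + b) * h + t * (a - 2 * b) * k)) = (M : ℤ) * M * (t * nf h k) := by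
        unfold nf
        ring
      rw [e3, hk0]
      ring
    rw [e2, ec_add, mul_comm p M, ec_mul_mul hM0, ec_add]
  have h3 : (p : ℂ) * (p * Sn (p * M) t) = sr (p * M) fun a => sr (p * M) fun b =>
      ec (p * M) (t * nf a b) * ((if (p : ℤ) ∣ t * (2 * a + b) then (p : ℂ) else 0) *
        (if (p : ℤ) ∣ t * (a - 2 * b) then (p : ℂ) else 0)) := by
    have e4 : (p : ℂ) * (p * Sn (p * M) t) = sr p fun h => sr p fun k => Sn (p * M) t := by
      unfold sr
      simp only [sum_const, card_range, nsmul_eq_mul]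
    rw [e4]
    have e5 : ∀ h k : ℤ, Sn (p * M) t = sr (p * M) fun a => sr (p * M) fun b =>
        ec (p * M) (t * nf a b) * (ec p (t * (2 * a + b) * h) * ec p (t * (a - 2 * b) * k)) := by
      intro h k
      rw [h1 h k]
      exact sr_congr fun a => sr_congr fun b => h2 a b h k
    calc sr p (fun h => sr p fun k => Sn (p * M) t) = sr p (fun h => sr p fun k =>
          sr (p * M) fun a => sr (p * M) fun b =>
        ec (p * M) (t * nf a b) * (ec p (t * (2 * a + b) * h) * ec p (t * (a - 2 * b) * k))) :=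
          sr_congr fun h => sr_congr fun k => e5 h k
      _ = sr (p * M) (fun a => sr (p * M) fun b => sr p fun h => sr p fun k =>
        ec (p * M) (t * nf a b) * (ec p (t * (2 * a + b) * h) * ec p (t * (a - 2 * b) * k))) := by
          have e6 : ∀ h : ℤ, (sr p fun k => sr (p * M) fun a => sr (p * M) fun b =>
            ec (p * M) (t * nf a b) * (ec p (t * (2 * a + b) * h) * ec p (t * (a - 2 * b) * k))) =
            sr (p * M) fun a => sr (p * M) fun b => sr p fun k =>
            ec (p * M) (t * nf a b) * (ec p (t * (2 * a + b) * h) * ec p (t * (a - 2 * b) * k)) := by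
            intro h
            rw [sr_comm]
            exact sr_congr fun a => sr_comm _ _ _
          simp_rw [e6]
          rw [sr_comm]
          exact sr_congr fun a => sr_comm _ _ _
      _ = _ := by
          refine sr_congr fun a => sr_congr fun b => ?_
          simp_rw [sr_mul_left]
          rw [sr_ec hp0]
          congr 1
          rw [← sr_ec hp0 (t * (2 * a + b))]
          unfold sr
          rw [sum_mul]
  have h4 : ∀ a b : ℤ, ec (p * M) (t * nf a b) *
      ((if (p : ℤ) ∣ t * (2 * a + b) then (p : ℂ) else 0) *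
        (if (p : ℤ) ∣ t * (a - 2 * b) then (p : ℂ) else 0)) =
      (p : ℂ) * (p * (if (p : ℤ) ∣ a then (if (p : ℤ) ∣ b then ec (p * M) (t * nf a b) else 0) else 0)) := by
    intro a b
    have hh5 : ¬ (p : ℤ) ∣ 5 := by
      intro h
      have : p ∣ 5 := by exact_mod_cast h
      exact hp5 ((Nat.prime_dvd_prime_iff_eq hp (by norm_num)).1 this)
    by_cases ha : (p : ℤ) ∣ a
    · by_cases hb : (p : ℤ) ∣ b
      · rw [if_pos ha, if_pos hb, if_pos (Dvd.dvd.mul_left (dvd_add (ha.mul_left 2) hb) t),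
          if_pos (Dvd.dvd.mul_left (dvd_sub ha (hb.mul_left 2)) t)]
        ring
      · rw [if_pos ha, if_neg hb, if_neg]
        · ring
        · intro h
          rcases hpZ.dvd_or_dvd h with h | h
          · exact ht h
          · exact hb ((dvd_add_right (ha.mul_left 2)).1 h)
    · rw [if_neg ha]
      by_cases h1 : (p : ℤ) ∣ t * (2 * a + b)
      · by_cases h2 : (p : ℤ) ∣ t * (a - 2 * b)
        · exfalso
          have h3 := (hpZ.dvd_or_dvd h1).resolve_left ht
          have h4 := (hpZ.dvd_or_dvd h2).resolve_left ht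
          have h5 : (p : ℤ) ∣ 5 * a := by
            have := dvd_add (h3.mul_left 2) h4
            have e : 2 * (2 * a + b) + (a - 2 * b) = 5 * a := by ring
            rwa [e] at this
          rcases hpZ.dvd_or_dvd h5 with h | h
          · exact hh5 h
          · exact ha h
        · rw [if_neg h2]
          ring
      · rw [if_neg h1]
        ring
  have hpC : (p : ℂ) ≠ 0 := by exact_mod_cast hp0.ne'
  have h5 : Sn (p * M) t = sr (p * M) fun a => if (p : ℤ) ∣ a then
      (sr (p * M) fun b => if (p : ℤ) ∣ b then ec (p * M) (t * nf a b) else 0) else 0 := by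
    have e6 : (p : ℂ) * (p * Sn (p * M) t) = (p : ℂ) * (p * (sr (p * M) fun a => if (p : ℤ) ∣ a then
      (sr (p * M) fun b => if (p : ℤ) ∣ b then ec (p * M) (t * nf a b) else 0) else 0)) := by
      rw [h3]
      simp_rw [h4]
      simp_rw [sr_mul_left]
      congr 2
      refine sr_congr fun a => ?_
      split_ifs with h
      · rfl
      · unfold sr; simp
    exact mul_left_cancel₀ hpC (mul_left_cancel₀ hpC e6)
  rw [h5, sr_multiples p M hp0]
  simp_rw [sr_multiples p M hp0]
  have h6 : ∀ x y : ℤ, ec (p * M) (t * nf (p * x) (p * y)) = ec (p ^ n) (t * nf x y) := by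
    intro x y
    have e7 : p * M = (p ^ 2) * p ^ n := by rw [hM]; ring
    have e8 : t * nf (p * x) (p * y) = ((p ^ 2 : ℕ) : ℤ) * (t * nf x y) := by
      unfold nf
      push_cast
      ring
    rw [e7, e8, ec_mul_mul (pow_pos hp0 2)]
  simp_rw [h6]
  have h7 : M = p * p ^ n := by rw [hM]; ring
  rw [h7]
  have hpn : 0 < p ^ n := pow_pos hp0 n
  have h8 : ∀ x : ℤ, sr (p * p ^ n) (fun y => ec (p ^ n) (t * nf x y)) =
      p * sr (p ^ n) (fun y => ec (p ^ n) (t * nf x y)) := fun x => sr_mul_per _ _ (Sn_pe hpn t x)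
  simp_rw [h8, sr_mul_left]
  rw [sr_mul_per _ _ (Pe.sr fun y => Sn_pe' hpn t y)]
  unfold Sn
  ring

theorem Sn_one (t : ℤ) : Sn 1 t = 1 := by
  unfold Sn sr
  simp [nf, ec_zero]

theorem Sn_two {t : ℤ} (ht : ¬ (2 : ℤ) ∣ t) : Sn 2 t = -2 := by
  have h1 : ∀ x : ℤ, ¬ (2 : ℤ) ∣ x → ec 2 x = -1 := by
    intro x hx
    have : ec 2 x = ec 2 1 := ec_per (by norm_num) (by push_cast; omega)
    rw [this]
    unfold ec
    have : (2 * Real.pi * Complex.I * ((1 : ℤ) : ℂ) / ((2 : ℕ) : ℂ)) = Real.pi * Complex.I := by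
      push_cast
      ring
    rw [this, Complex.exp_pi_mul_I]
  unfold Sn sr
  simp only [sum_range_succ, range_zero, sum_empty, zero_add, Nat.cast_zero, Nat.cast_one, nf]
  norm_num
  rw [ec_zero, h1 t ht, h1 (-t) (by omega)]
  norm_num

end Pool.Agent.U283.GF
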