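import Pool.Agent.U283.GF.Sn

set_option autoImplicit false

open Finset Complex

namespace Pool.Agent.U283.GF

lemma Sn_eq_zmod (q : ℕ) [NeZero q] (t : ℤ) : Sn q t = ∑ a : ZMod q, ∑ b : ZMod q,
    ZMod.stdAddChar ((t : ZMod q) * (a ^ 2 + a * b - b ^ 2)) := by
  unfold Sn
  rw [sr_eq]
  refine sum_congr rfl fun a _ => ?_
  rw [sr_eq]
  refine sum_congr rfl fun b _ => ?_
  rw [← ec_stdAddChar]
  congr 1
  unfold nf
  push_cast
  rw [ZMod.natCast_zmod_val, ZMod.natCast_zmod_val]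

section prime

variable {p : ℕ} [Fact p.Prime]

/-- the sum of `e(c u²)` -/
lemma sum_sq (hp : p ≠ 2) {c : ZMod p} (hc : c ≠ 0) :
    ∑ u : ZMod p, ZMod.stdAddChar (c * u ^ 2) =
      ((quadraticChar (ZMod p) c : ℤ) : ℂ) *
        gaussSum ((quadraticChar (ZMod p)).ringHomComp (Int.castRingHom ℂ)) (ZMod.stdAddChar (N := p)) := by
  classical
  have hF : ringChar (ZMod p) ≠ 2 := by rwa [ZMod.ringChar_zmod_n]
  have h1 : ∑ u : ZMod p, (ZMod.stdAddChar (c * u ^ 2) : ℂ) =
      ∑ a : ZMod p, ((quadraticChar (ZMod p) a + 1 : ℤ) : ℂ) * ZMod.stdAddChar (c * a) := by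
    rw [← sum_fiberwise_of_maps_to (s := univ) (t := univ) (g := fun u : ZMod p => u ^ 2)
      (fun _ _ => mem_univ _)]
    refine sum_congr rfl fun a _ => ?_
    rw [← quadraticChar_card_sqrts hF a]
    have h2 : ∀ u ∈ univ.filter (fun u : ZMod p => u ^ 2 = a),
        (ZMod.stdAddChar (c * u ^ 2) : ℂ) = ZMod.stdAddChar (c * a) := by
      intro u hu
      rw [(mem_filter.1 hu).2]
    rw [sum_congr rfl h2, sum_const, nsmul_eq_mul]
    congr 1
    have : univ.filter (fun u : ZMod p => u ^ 2 = a) = {x : ZMod p | x ^ 2 = a}.toFinset := by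
      ext x
      simp
    rw [this]
    push_cast
    rfl
  rw [h1]
  have h3 : ∑ a : ZMod p, (ZMod.stdAddChar (c * a) : ℂ) = 0 := by
    have := AddChar.sum_mulShift (ψ := ZMod.stdAddChar (N := p)) c
      (ZMod.isPrimitive_stdAddChar p)
    simp only [hc, if_false, Nat.cast_zero] at this
    rw [← this]
    refine sum_congr rfl fun a _ => ?_
    rw [mul_comm]
  have h4 : ∑ a : ZMod p, ((quadraticChar (ZMod p) a + 1 : ℤ) : ℂ) *
      (ZMod.stdAddChar (c * a) : ℂ) = ∑ a : ZMod p, ((quadraticChar (ZMod p) a : ℤ) : ℂ) *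
      (ZMod.stdAddChar (c * a) : ℂ) + ∑ a : ZMod p, (ZMod.stdAddChar (c * a) : ℂ) := by
    rw [← sum_add_distrib]
    refine sum_congr rfl fun a _ => ?_
    push_cast
    ring
  rw [h4, h3, add_zero]
  set u : (ZMod p)ˣ := Units.mk0 c hc with hu
  have h5 := gaussSum_mulShift ((quadraticChar (ZMod p)).ringHomComp (Int.castRingHom ℂ))
    (ZMod.stdAddChar (N := p)) u
  have h6 : ((quadraticChar (ZMod p) c : ℤ) : ℂ) * ((quadraticChar (ZMod p) c : ℤ) : ℂ) = 1 := by
    have := quadraticChar_sq_one hc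
    rw [← Int.cast_mul, ← pow_two, this]
    norm_num
  rw [← h5]
  have h7 : ((quadraticChar (ZMod p)).ringHomComp (Int.castRingHom ℂ)) (u : ZMod p) =
      ((quadraticChar (ZMod p) c : ℤ) : ℂ) := rfl
  rw [h7, ← mul_assoc, h6, one_mul]
  unfold gaussSum
  refine sum_congr rfl fun a _ => ?_
  rw [AddChar.mulShift_apply]
  rfl

theorem Sn_odd_prime (hp2 : p ≠ 2) (hp5 : p ≠ 5) {t : ℤ} (ht : ¬ (p : ℤ) ∣ t) :
    Sn p t = ((jacobiSym p 5 : ℤ) : ℂ) * p := by
  classical
  have hp : p.Prime := Fact.out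
  have hF : ringChar (ZMod p) ≠ 2 := by rwa [ZMod.ringChar_zmod_n]
  have h2 : (2 : ZMod p) ≠ 0 := by
    intro h
    have h' : ((2 : ℕ) : ZMod p) = 0 := by exact_mod_cast h
    rw [ZMod.natCast_eq_zero_iff] at h'
    exact hp2 ((Nat.prime_dvd_prime_iff_eq hp Nat.prime_two).1 h')
  have h5 : (5 : ZMod p) ≠ 0 := by
    intro h
    have h' : ((5 : ℕ) : ZMod p) = 0 := by exact_mod_cast h
    rw [ZMod.natCast_eq_zero_iff] at h'
    exact hp5 ((Nat.prime_dvd_prime_iff_eq hp (by norm_num)).1 h')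
  have ht' : (t : ZMod p) ≠ 0 := by
    intro h
    exact ht ((ZMod.intCast_zmod_eq_zero_iff_dvd t p).1 h)
  set c : ZMod p := t / 4 with hc
  have h4 : (4 : ZMod p) ≠ 0 := by
    have : (4 : ZMod p) = 2 * 2 := by norm_num
    rw [this]
    exact mul_ne_zero h2 h2
  have hc0 : c ≠ 0 := div_ne_zero ht' h4
  have hct : (t : ZMod p) = 4 * c := by rw [hc]; field_simp
  rw [Sn_eq_zmod]
  have e1 : ∀ b : ZMod p, ∑ a : ZMod p, (ZMod.stdAddChar ((t : ZMod p) * (a ^ 2 + a * b - b ^ 2)) : ℂ) =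
      (∑ u : ZMod p, (ZMod.stdAddChar (c * u ^ 2) : ℂ)) * ZMod.stdAddChar (-5 * c * b ^ 2) := by
    intro b
    rw [sum_mul]
    have hbij : Function.Bijective (fun a : ZMod p => 2 * a + b) := by
      refine (Finite.injective_iff_bijective).1 fun a a' h => ?_
      exact mul_left_cancel₀ h2 (add_right_cancel h)
    refine Fintype.sum_bijective _ hbij _ _ fun a => ?_
    rw [← AddChar.map_add_eq_mul, hct]
    congr 1
    ring
  rw [sum_comm]
  simp_rw [e1]
  rw [← mul_sum, sum_sq hp2 hc0, sum_sq hp2 (mul_ne_zero (neg_ne_zero.2 h5) hc0)]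
  set G := gaussSum ((quadraticChar (ZMod p)).ringHomComp (Int.castRingHom ℂ)) (ZMod.stdAddChar (N := p)) with hG
  have hne : ((quadraticChar (ZMod p)).ringHomComp (Int.castRingHom ℂ)) ≠ 1 := by
    intro h
    obtain ⟨a, ha⟩ := quadraticChar_exists_neg_one' hF
    have h' := congrArg (fun χ : MulChar (ZMod p) ℂ => χ (a : ZMod p)) h
    simp only [MulChar.ringHomComp_apply, ha] at h'
    rw [MulChar.one_apply a.isUnit] at h'
    norm_num at h'
  have hquad : ((quadraticChar (ZMod p)).ringHomComp (Int.castRingHom ℂ)).IsQuadratic :=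
    (quadraticChar_isQuadratic (ZMod p)).comp _
  have hsq := gaussSum_sq hne hquad (ZMod.isPrimitive_stdAddChar p)
  rw [← hG, ZMod.card] at hsq
  have e2 : ((quadraticChar (ZMod p) c : ℤ) : ℂ) * G * (((quadraticChar (ZMod p) (-5 * c) : ℤ) : ℂ) * G) =
      ((quadraticChar (ZMod p) c : ℤ) : ℂ) * ((quadraticChar (ZMod p) (-5 * c) : ℤ) : ℂ) * G ^ 2 := by ring
  rw [e2, hsq]
  have e3 : ((quadraticChar (ZMod p)).ringHomComp (Int.castRingHom ℂ)) (-1) =
      ((quadraticChar (ZMod p) (-1) : ℤ) : ℂ) := rfl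
  rw [e3, ← mul_assoc, ← Int.cast_mul, ← Int.cast_mul, ← map_mul, ← map_mul]
  congr 2
  have e4 : c * (-5 * c) * -1 = 5 * c ^ 2 := by ring
  rw [e4, map_mul, map_pow, quadraticChar_sq_one hc0, mul_one]
  -- reciprocity
  have hodd : Odd p := hp.odd_of_ne_two hp2
  have e5 := jacobiSym.quadratic_reciprocity_one_mod_four (a := 5) (b := p) (by norm_num) hodd
  have e6 : quadraticChar (ZMod p) 5 = jacobiSym ((5 : ℕ) : ℤ) p := by
    rw [← jacobiSym.legendreSym.to_jacobiSym]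
    unfold legendreSym
    push_cast
    rfl
  rw [e6, e5]

end prime

theorem jac_sq {n : ℕ} (h : Nat.Coprime n 5) : (jacobiSym n 5) ^ 2 = 1 := by
  apply jacobiSym.sq_one
  rw [Int.gcd_natCast_natCast]
  exact h

theorem Sn_prime_pow {p : ℕ} (hp : p.Prime) (hp5 : p ≠ 5) {t : ℤ} (ht : ¬ (p : ℤ) ∣ t) (n : ℕ) :
    Sn (p ^ n) t = ((jacobiSym ((p ^ n : ℕ) : ℤ) 5 : ℤ) : ℂ) * (p : ℂ) ^ n := by
  have hcop : Nat.Coprime p 5 := (Nat.coprime_primes hp (by norm_num)).2 hp5
  induction n using Nat.strong_induction_on with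
  | _ n ih =>
    rcases n with _ | _ | n
    · rw [pow_zero, Sn_one]
      simp
    · rw [zero_add, pow_one, pow_one]
      rcases eq_or_ne p 2 with rfl | h2
      · have h1 : jacobiSym ((2 : ℕ) : ℤ) 5 = -1 := by norm_num
        rw [Sn_two (by exact_mod_cast ht), h1]
        norm_num
      · have : Fact p.Prime := ⟨hp⟩
        exact Sn_odd_prime h2 hp5 ht
    · rw [Sn_prime_rec hp hp5 ht, ih n (by omega)]
      have h1 : jacobiSym ((p ^ (n + 2) : ℕ) : ℤ) 5 = jacobiSym ((p ^ n : ℕ) : ℤ) 5 := by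
        have e1 : ((p ^ (n + 2) : ℕ) : ℤ) = ((p ^ n : ℕ) : ℤ) * (p : ℤ) ^ 2 := by push_cast; ring
        rw [e1, jacobiSym.mul_left, jacobiSym.pow_left, jac_sq hcop, mul_one]
      rw [h1]
      ring

/-- **the Gauss sum of the norm form** -/
theorem Sn_eq (q : ℕ) (hq : Nat.Coprime q 5) (t : ℤ) (ht : IsCoprime t (q : ℤ)) :
    Sn q t = ((jacobiSym (q : ℤ) 5 : ℤ) : ℂ) * q := by
  induction q using Nat.recOnPosPrimePosCoprime generalizing t with
  | prime_pow p n hp hn =>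
    have h1 : Nat.Coprime p 5 := Nat.Coprime.coprime_dvd_left (dvd_pow_self p hn.ne') hq
    have h5 : p ≠ 5 := fun h => by subst h; norm_num at h1
    have ht' : ¬ (p : ℤ) ∣ t := by
      intro h
      have h2 : (p : ℤ) ∣ ((p ^ n : ℕ) : ℤ) := by
        push_cast
        exact dvd_pow_self _ hn.ne'
      have h3 := ht.isUnit_of_dvd' h h2
      exact (Nat.prime_iff_prime_int.1 hp).not_isUnit h3
    rw [Sn_prime_pow hp h5 ht']
    push_cast
    rfl
  | zero => norm_num at hq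
  | one => rw [Sn_one]; simp
  | coprime a b ha hb hab iha ihb =>
    have : NeZero a := ⟨by omega⟩
    have : NeZero b := ⟨by omega⟩
    rw [Sn_crt hab]
    have hta : IsCoprime t (a : ℤ) := by
      push_cast at ht
      exact ht.of_mul_right_left
    have htb : IsCoprime t (b : ℤ) := by
      push_cast at ht
      exact ht.of_mul_right_right
    have hab' : IsCoprime (a : ℤ) (b : ℤ) := Nat.isCoprime_iff_coprime.2 hab
    rw [iha (Nat.Coprime.coprime_dvd_left (dvd_mul_right a b) hq) _ (hta.mul_left hab'.symm),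
      ihb (Nat.Coprime.coprime_dvd_left (dvd_mul_left b a) hq) _ (htb.mul_left hab')]
    push_cast
    rw [jacobiSym.mul_left]
    push_cast
    ring

end Pool.Agent.U283.GF
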