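import Mathlib

/-!
# The Gauss sums of the norm form `a² + a b - b²`

`Sn q t = ∑_{a, b mod q} e(t (a² + a b - b²) / q)` equals `(q | 5) q` for all units `t`, `q` prime to `5`.
-/

set_option autoImplicit false

open Finset Complex

namespace Pool.Agent.U283.GF

/-- `e(x / q)` -/
noncomputable def ec (q : ℕ) (x : ℤ) : ℂ := Complex.exp (2 * Real.pi * Complex.I * x / q)

lemma ec_add (q : ℕ) (x y : ℤ) : ec q (x + y) = ec q x * ec q y := by
  unfold ec
  rw [← Complex.exp_add]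
  congr 1
  push_cast
  ring

lemma ec_zero (q : ℕ) : ec q 0 = 1 := by simp [ec]

lemma ec_mul_self {q : ℕ} (hq : 0 < q) (k : ℤ) : ec q (q * k) = 1 := by
  unfold ec
  have : (q : ℂ) ≠ 0 := by exact_mod_cast hq.ne'
  rw [Complex.exp_eq_one_iff]
  exact ⟨k, by push_cast; field_simp⟩

lemma ec_per {q : ℕ} (hq : 0 < q) {x y : ℤ} (h : (q : ℤ) ∣ x - y) : ec q x = ec q y := by
  obtain ⟨k, hk⟩ := h
  have : x = y + q * k := by omega
  rw [this, ec_add, ec_mul_self hq, mul_one]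

lemma ec_modEq {q : ℕ} (hq : 0 < q) {x y : ℤ} (h : x ≡ y [ZMOD q]) : ec q x = ec q y :=
  ec_per hq (Int.modEq_iff_dvd.1 h.symm)

lemma ec_mul_mul {q m : ℕ} (hm : 0 < m) (x : ℤ) : ec (m * q) (m * x) = ec q x := by
  unfold ec
  have : (m : ℂ) ≠ 0 := by exact_mod_cast hm.ne'
  congr 1
  push_cast
  rcases Nat.eq_zero_or_pos q with rfl | hq
  · simp
  have : (q : ℂ) ≠ 0 := by exact_mod_cast hq.ne'
  field_simp

lemma ec_stdAddChar {q : ℕ} [NeZero q] (x : ℤ) : ZMod.stdAddChar (x : ZMod q) = ec q x := by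
  rw [ZMod.stdAddChar_coe]
  rfl

/-- sum of a periodic function over a period -/
noncomputable def sr (q : ℕ) (f : ℤ → ℂ) : ℂ := ∑ n ∈ range q, f (n : ℤ)

/-- periodicity -/
def Pe (q : ℕ) (f : ℤ → ℂ) : Prop := ∀ x y : ℤ, (q : ℤ) ∣ x - y → f x = f y

lemma Pe.val {q : ℕ} [NeZero q] {f : ℤ → ℂ} (hf : Pe q f) (x : ℤ) :
    f (((x : ZMod q).val : ℕ) : ℤ) = f x := by
  apply hf
  rw [ZMod.val_intCast]
  exact (Int.modEq_iff_dvd.1 (Int.mod_modEq x q).symm)

lemma sr_eq {q : ℕ} [NeZero q] (f : ℤ → ℂ) : sr q f = ∑ x : ZMod q, f ((x.val : ℕ) : ℤ) := by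
  unfold sr
  rw [← Fin.sum_univ_eq_sum_range (fun n => f (n : ℤ)) q]
  refine Fintype.sum_equiv (ZMod.finEquiv q).toEquiv _ _ fun x => ?_
  congr 2
  rcases q with _ | q
  · exact absurd rfl (NeZero.ne 0)
  · rfl

lemma sr_shift {q : ℕ} [NeZero q] {f : ℤ → ℂ} (hf : Pe q f) (c : ℤ) :
    sr q (fun x => f (x + c)) = sr q f := by
  rw [sr_eq, sr_eq]
  refine Fintype.sum_equiv (Equiv.addRight (c : ZMod q)) _ _ fun x => ?_
  rw [← hf.val (((x.val : ℕ) : ℤ) + c)]
  congr 3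
  push_cast
  rw [ZMod.natCast_zmod_val]
  rfl

lemma sr_mul {q : ℕ} [NeZero q] {f : ℤ → ℂ} (hf : Pe q f) {u : ℤ} (hu : IsCoprime u (q : ℤ)) :
    sr q (fun x => f (u * x)) = sr q f := by
  rw [sr_eq, sr_eq]
  have hU : IsUnit (u : ZMod q) := by
    rw [← ZMod.coe_unitOfIsCoprime u (by rwa [isCoprime_comm] at hu ⊢)]
    exact Units.isUnit _
  obtain ⟨v, hv⟩ := hU
  refine Fintype.sum_equiv (Units.mulLeft v) _ _ fun x => ?_
  rw [← hf.val (u * ((x.val : ℕ) : ℤ))]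
  congr 3
  push_cast
  rw [ZMod.natCast_zmod_val, ← hv]
  rfl

lemma sr_congr {q : ℕ} {f g : ℤ → ℂ} (h : ∀ x, f x = g x) : sr q f = sr q g := by
  unfold sr
  exact sum_congr rfl fun n _ => h n

lemma sr_mul_left (q : ℕ) (c : ℂ) (f : ℤ → ℂ) : sr q (fun x => c * f x) = c * sr q f := by
  unfold sr
  rw [mul_sum]

lemma sr_comm (q r : ℕ) (f : ℤ → ℤ → ℂ) :
    sr q (fun x => sr r (fun y => f x y)) = sr r (fun y => sr q (fun x => f x y)) := by
  unfold sr
  exact sum_comm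

/-- CRT -/
lemma sr_crt {m n : ℕ} [NeZero m] [NeZero n] (h : Nat.Coprime m n) {f : ℤ → ℂ} (hf : Pe (m * n) f) :
    sr (m * n) f = sr m (fun x => sr n (fun y => f (n * x + m * y))) := by
  have : NeZero (m * n) := ⟨mul_ne_zero (NeZero.ne m) (NeZero.ne n)⟩
  rw [sr_eq, sr_eq]
  simp_rw [sr_eq]
  rw [← Fintype.sum_prod_type' (fun (x : ZMod m) (y : ZMod n) =>
    f (n * ((x.val : ℕ) : ℤ) + m * ((y.val : ℕ) : ℤ)))]
  symm
  -- the map `(x, y) ↦ n x + m y`
  have hbij : Function.Bijective (fun z : ZMod m × ZMod n =>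
      ((n * z.1.val + m * z.2.val : ℕ) : ZMod (m * n))) := by
    rw [Fintype.bijective_iff_injective_and_card]
    refine ⟨?_, by simp [ZMod.card]⟩
    rintro ⟨x, y⟩ ⟨x', y'⟩ hxy
    simp only at hxy
    rw [ZMod.natCast_eq_natCast_iff] at hxy
    have hnm : IsUnit ((n : ℕ) : ZMod m) := (ZMod.isUnit_iff_coprime n m).2 h.symm
    have hmn : IsUnit ((m : ℕ) : ZMod n) := (ZMod.isUnit_iff_coprime m n).2 h
    have h1 : ((n * x.val + m * y.val : ℕ) : ZMod m) = ((n * x'.val + m * y'.val : ℕ) : ZMod m) :=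
      (ZMod.natCast_eq_natCast_iff _ _ _).2 (hxy.of_mul_right n)
    have h2 : ((n * x.val + m * y.val : ℕ) : ZMod n) = ((n * x'.val + m * y'.val : ℕ) : ZMod n) :=
      (ZMod.natCast_eq_natCast_iff _ _ _).2 (hxy.of_mul_left m)
    push_cast at h1 h2
    simp only [ZMod.natCast_self, ZMod.natCast_zmod_val, zero_mul, add_zero, zero_add] at h1 h2
    rw [Prod.mk.injEq]
    exact ⟨hnm.mul_left_cancel h1, hmn.mul_left_cancel h2⟩
  refine Fintype.sum_bijective _ hbij _ _ fun z => ?_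
  rw [← hf.val (n * ((z.1.val : ℕ) : ℤ) + m * ((z.2.val : ℕ) : ℤ))]
  congr 3
  push_cast
  rfl

/-- splitting off the multiples -/
lemma sr_mul_range (m p : ℕ) (f : ℤ → ℂ) :
    sr (p * m) f = ∑ i ∈ range p, sr m (fun x => f (x + m * i)) := by
  unfold sr
  induction p with
  | zero => simp
  | succ p ih =>
    rw [Nat.succ_mul, sum_range_add, ih, sum_range_succ]
    congr 1
    refine sum_congr rfl fun x _ => ?_
    congr 1
    push_cast
    ring

lemma sr_mul_per (m p : ℕ) {f : ℤ → ℂ} (hf : Pe m f) : sr (p * m) f = p * sr m f := by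
  rw [sr_mul_range]
  have : ∀ i ∈ range p, sr m (fun x => f (x + m * i)) = sr m f := fun i _ =>
    sr_congr fun x => hf _ _ ⟨i, by ring⟩
  rw [sum_congr rfl this, sum_const, card_range, nsmul_eq_mul]

/-- orthogonality -/
lemma sr_ec {q : ℕ} (hq : 0 < q) (c : ℤ) : sr q (fun x => ec q (c * x)) =
    if (q : ℤ) ∣ c then (q : ℂ) else 0 := by
  split_ifs with h
  · have : ∀ x : ℤ, ec q (c * x) = 1 := by
      intro x
      rw [ec_per hq (y := 0) (by rw [sub_zero]; exact h.mul_right x), ec_zero]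
    unfold sr
    simp [this]
  · have hne : ec q c ≠ 1 := by
      intro h1
      apply h
      unfold ec at h1
      rw [Complex.exp_eq_one_iff] at h1
      obtain ⟨k, hk⟩ := h1
      have hq' : (q : ℂ) ≠ 0 := by exact_mod_cast hq.ne'
      have hp : (2 * Real.pi * Complex.I : ℂ) ≠ 0 := by
        simp [Real.pi_ne_zero]
      have h2 : (c : ℂ) = k * q := by
        field_simp at hk
        linear_combination hk
      exact ⟨k, by rw [mul_comm]; exact_mod_cast h2⟩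
    have h2 : ∀ x : ℕ, ec q (c * x) = ec q c ^ x := by
      intro x
      unfold ec
      rw [← Complex.exp_nat_mul]
      congr 1
      push_cast
      ring
    unfold sr
    simp_rw [h2]
    have h3 : ec q c ^ q = 1 := by
      rw [← h2, mul_comm, ec_mul_self hq]
    have := geom_sum_mul (ec q c) q
    rw [h3, sub_self] at this
    exact (mul_eq_zero.1 this).resolve_right (sub_ne_zero.2 hne)

/-- the norm form -/
def nf (a b : ℤ) : ℤ := a ^ 2 + a * b - b ^ 2

noncomputable def Sn (q : ℕ) (t : ℤ) : ℂ := sr q fun a => sr q fun b => ec q (t * nf a b)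

lemma nf_pe {q : ℕ} {a a' b b' : ℤ} (h1 : (q : ℤ) ∣ a - a') (h2 : (q : ℤ) ∣ b - b') :
    (q : ℤ) ∣ nf a b - nf a' b' := by
  obtain ⟨k, hk⟩ := h1
  obtain ⟨l, hl⟩ := h2
  have e1 : a = a' + q * k := by omega
  have e2 : b = b' + q * l := by omega
  unfold nf
  rw [e1, e2]
  exact ⟨2 * a' * k + q * k ^ 2 + a' * l + b' * k + q * k * l - 2 * b' * l - q * l ^ 2, by ring⟩

end Pool.Agent.U283.GF
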