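import Pool.Agent.U283.GF.Gal

/-! # The central values vanish -/

set_option autoImplicit false
set_option linter.unusedSectionVars false

open NumberField Module Complex

namespace Pool.Agent.U283.GF

open Pool.Agent.Y773 Pool.Agent.Y767

variable {K : Type} [Field K] [NumberField K] [IsTotallyReal K] (D : QF K)

namespace QF

lemma conj_real_cpow' {R : ℝ} (hR : 0 < R) (s : ℂ) :
    (starRingEnd ℂ) ((R : ℂ) ^ s) = (R : ℂ) ^ ((starRingEnd ℂ) s) := by
  have h7 : ((R : ℝ) : ℂ).arg ≠ Real.pi := by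
    rw [Complex.arg_ofReal_of_nonneg hR.le]
    exact Real.pi_ne_zero.symm
  have h8 := Complex.conj_cpow (R : ℂ) ((starRingEnd ℂ) s) h7
  rw [Complex.conj_ofReal, Complex.conj_conj] at h8
  exact h8.symm

lemma conj_Gamma' (z : ℂ) : (starRingEnd ℂ) (Gammaℝ z) = Gammaℝ ((starRingEnd ℂ) z) := by
  unfold Gammaℝ
  rw [map_mul, conj_real_cpow' Real.pi_pos, ← Complex.Gamma_conj]
  simp only [map_div₀, map_neg, map_ofNat]

lemma GG_real {R : ℝ} (hR : 0 < R) (e : ℕ) (v : ℝ) :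
    (starRingEnd ℂ) (GGn R (fun _ : InfinitePlace K => e) (fun w => -D.nu v w) (1 / 2)) =
      GGn R (fun _ : InfinitePlace K => e) (fun w => -D.nu v w) (1 / 2) := by
  unfold GGn
  rw [D.prod_eq]
  simp only [D.nu1, D.nu2]
  rw [map_mul, map_mul, conj_real_cpow' hR, conj_Gamma', conj_Gamma']
  have e1 : (starRingEnd ℂ) ((1 / 2 : ℂ) / 2) = 1 / 2 / 2 := by
    simp [map_ofNat]
  have e2 : (starRingEnd ℂ) (1 / 2 + (e : ℂ) + I * ((-v : ℝ) : ℂ)) =
      1 / 2 + (e : ℂ) + I * ((- -v : ℝ) : ℂ) := by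
    simp [map_ofNat]
  have e3 : (starRingEnd ℂ) (1 / 2 + (e : ℂ) + I * ((- -v : ℝ) : ℂ)) =
      1 / 2 + (e : ℂ) + I * ((-v : ℝ) : ℂ) := by
    simp [map_ofNat]
  rw [e1, e2, e3]
  ring

lemma GG_ne {R : ℝ} (hR : 0 < R) (e : ℕ) (v : ℝ) :
    GGn R (fun _ : InfinitePlace K => e) (fun w => -D.nu v w) (1 / 2) ≠ 0 := by
  unfold GGn
  refine mul_ne_zero ?_ (Finset.prod_ne_zero_iff.2 fun w _ => ?_)
  · rw [Ne, Complex.cpow_eq_zero_iff]
    exact fun h => hR.ne' (by exact_mod_cast h.1)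
  · refine Complex.Gammaℝ_ne_zero_of_re_pos ?_
    simp only [add_re, mul_re, I_re, I_im, ofReal_re, ofReal_im, natCast_re]
    have : (0 : ℝ) ≤ e := Nat.cast_nonneg _
    norm_num
    linarith

include D in
lemma coprime_disc {q : ℕ} (hq : Nat.Coprime q 5) : IsCoprime (q : ℤ) (discr K) := by
  have := D.discr_eq
  rw [this]
  exact_mod_cast Nat.isCoprime_iff_coprime.2 hq

/-- the twisted character is a primitive Hecke character -/
theorem tw_isHecke (k : ℕ) {q : ℕ} [NeZero q] {χ : DirichletCharacter ℂ q} (hχ : χ.IsPrimitive)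
    (hq : Nat.Coprime q 5) :
    IsHecke K (Ideal.span {D.rt} * Ideal.span {(q : 𝓞 K)}) (D.nu (vk k)) (tw (D.psi k) χ) :=
  Y772.HI.tw_hecke (D.psi_hecke k) χ (Nat.one_le_iff_ne_zero.2 (NeZero.ne q)) hχ
    (by rw [D.absNorm_rt]; exact hq) (D.coprime_disc hq)

theorem tw_isModK (k : ℕ) {q : ℕ} [NeZero q] {χ : DirichletCharacter ℂ q} (hχ : χ.IsPrimitive)
    (hq : Nat.Coprime q 5) :
    IsModK (Ideal.span {D.rt} * Ideal.span {(q : 𝓞 K)}) (kk (fun _ => par χ) (D.nu (vk k)))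
      (tw (D.psi k) χ) := by
  have h := D.tw_isHecke k hχ hq
  have hle1 : Ideal.span {D.rt} * Ideal.span {(q : 𝓞 K)} ≤ Ideal.span {D.rt} := Ideal.mul_le_left
  have hle2 : Ideal.span {D.rt} * Ideal.span {(q : 𝓞 K)} ≤ Ideal.span {(q : 𝓞 K)} :=
    Ideal.mul_le_right
  have htop : Ideal.span {D.rt} * Ideal.span {(q : 𝓞 K)} ≠ ⊤ := fun h1 =>
    D.rt_max.ne_top (top_le_iff.1 (h1 ▸ hle1))
  refine ⟨kap_kk _ (D.sum_nu _), h.ne_bot, htop, fun 𝔞 => ?_, fun x hx hx1 => ?_⟩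
  · by_cases h𝔞 : 𝔞 = ⊥
    · rw [h𝔞]
      constructor
      · intro h2
        exact absurd (by rw [← Ideal.zero_eq_bot, map_zero]) h2
      · intro h2
        rw [Ideal.isCoprime_iff_sup_eq, bot_sup_eq] at h2
        exact absurd h2 htop
    · exact h.supp 𝔞 h𝔞
  · rw [D.tw_val k χ x hx, D.cr_congr (hle1 hx1), D.cr_one, one_mul,
      Y772.TW.norm_eq_of_sub (hle2 hx1), map_one, Int.cast_one, map_one]

/-- **the central values vanish** (`q` prime to `5`) -/
theorem van (k : ℕ) {q : ℕ} [NeZero q] {χ : DirichletCharacter ℂ q} (hχ : χ.IsPrimitive)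
    (h2 : χ ^ 2 = 1) (hq : Nat.Coprime q 5) : ∃ F : ℂ → ℂ, Differentiable ℂ F ∧
      (∀ s : ℂ, 1 < s.re → F s = LI (tw (D.psi k) χ) s) ∧ F (1 / 2) = 0 := by
  have hq0 : 0 < q := Nat.pos_of_ne_zero (NeZero.ne q)
  have hH := D.tw_isHecke k hχ hq
  have hM := D.tw_isModK k hχ hq
  obtain ⟨F, hF1, hF2, τ, c, hc, hτ, hfe⟩ := fe_sign (fun _ => par_le χ) (D.sum_nu _)
    (hH.primK (fun _ => par χ)) hM
  refine ⟨F, hF1, hF2, ?_⟩
  -- the Gauss sum
  have hSt : St χ = τ * 5 := by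
    have h1 := hτ ⊤ (Ideal.span {((5 : ℕ) : 𝓞 K)}) (5 * q) 5 (by omega) (by norm_num) (by
        rw [D.diff_eq, Ideal.top_mul, Ideal.span_singleton_mul_span_singleton,
          Ideal.span_singleton_mul_span_singleton, Ideal.span_singleton_mul_span_singleton]
        congr 2
        have := D.rt_sq
        push_cast
        linear_combination (5 * q : 𝓞 K) * this) (by
        rw [Ideal.top_mul, Ideal.span_singleton_mul_span_singleton, Ideal.mem_span_singleton']
        refine ⟨D.rt, ?_⟩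
        have := D.rt_sq
        push_cast
        linear_combination (q : 𝓞 K) * this) (by
        rw [D.diff_eq, Ideal.mem_span_singleton']
        refine ⟨D.rt, ?_⟩
        have := D.rt_sq
        push_cast
        exact this) 5
    rw [D.FT_eval] at h1
    have h5 : Pk (tw (D.psi k) χ) (kk (fun _ => par χ) (D.nu (vk k)))
        (Ideal.span {((5 : ℕ) : 𝓞 K)}) 5 = 1 := by
      have hne : Ideal.span {((5 : ℕ) : 𝓞 K)} ≠ ⊥ := by
        rw [Ne, Ideal.span_singleton_eq_bot]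
        norm_num
      rw [Pk_of_eq hne (𝔞 := ⊤) (by rw [Ideal.top_mul]; norm_num), ← Ideal.one_eq_top, map_one,
        one_mul]
      have h6 := (kap_kk (K := K) (fun _ => par χ) (D.sum_nu (vk k))).nat 5 (by norm_num)
      have h7 : (((5 : 𝓞 K)) : K) = ((5 : ℕ) : K) := by
        have : (((5 : 𝓞 K)) : K) = algebraMap (𝓞 K) K 5 := rfl
        rw [this, map_ofNat]
        norm_num
      rw [h7]
      exact h6
    rw [h5, map_one, mul_one, D.fr] at h1
    have h8 : Ideal.absNorm (Ideal.span {D.rt} * Ideal.span {(q : 𝓞 K)}) = 5 * q ^ 2 := by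
      rw [map_mul, D.absNorm_rt, absNorm_span_nat, D.fr]
    rw [h1, h8]
    have hqC : (q : ℂ) ≠ 0 := by exact_mod_cast hq0.ne'
    have h9 : Ideal.absNorm (⊤ : Ideal (𝓞 K)) = 1 := Ideal.absNorm_top
    rw [h9]
    push_cast
    field_simp
  obtain ⟨b, hb, hB⟩ := B5_neg
  rw [St_eq hχ h2 hq, hB] at hSt
  -- the root number
  have hw : (c * (-I) ^ (∑ _w : InfinitePlace K, par χ) * τ : ℂ) = ((-(c * q * b / 5) : ℝ) : ℂ) := by
    have h1 : (-I : ℂ) ^ (∑ _w : InfinitePlace K, par χ) = χ (-1) := by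
      rw [D.sum_eq, ← two_mul, pow_mul, neg_sq, I_sq, chi_neg_one]
    have h3 : χ (-1) * χ (-1) = 1 := by
      rw [← map_mul]
      norm_num
    rw [h1]
    push_cast at hSt ⊢
    linear_combination (-(c : ℂ) * χ (-1) / 5) * hSt - (c * q * b / 5 : ℂ) * h3
  have hR0 : (0 : ℝ) < ((Ideal.absNorm (Ideal.span {D.rt} * Ideal.span {(q : 𝓞 K)}) *
      Ideal.absNorm (differentIdeal ℤ (𝓞 K)) : ℕ) : ℝ) := by
    rw [map_mul, D.absNorm_rt, absNorm_span_nat, D.fr, D.absNorm_diff]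
    positivity
  -- the value is real
  have hreal : ∀ s : ℂ, (starRingEnd ℂ) (F ((starRingEnd ℂ) s)) = F s := by
    have h1 : (fun s : ℂ => (starRingEnd ℂ) (F ((starRingEnd ℂ) s))) = F := by
      refine entire_eq ?_ hF1 fun s hs => ?_
      · intro s
        have h3 := (hF1 ((starRingEnd ℂ) s)).conj_conj
        rw [Complex.conj_conj] at h3
        exact h3
      · rw [hF2 s hs, hF2 _ (by simpa using hs), D.LI_conj k h2, Complex.conj_conj]
    intro s
    exact congrFun h1 s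
  have hfe2 := hfe (1 / 2) (fun w => by
    have h1 : ((1 / 2 : ℂ)).im = 0 := by norm_num
    rw [h1, zero_add, neg_ne_zero]
    have := vk_pos k
    rcases D.all w with h | h
    · rw [h, D.nu1]
      exact this.ne'
    · rw [h, D.nu2]
      exact neg_ne_zero.2 this.ne')
  have hhalf : (starRingEnd ℂ) (1 / 2 : ℂ) = 1 / 2 := by simp [map_ofNat]
  have hh2 : 1 - (starRingEnd ℂ) (1 / 2 : ℂ) = 1 / 2 := by rw [hhalf]; norm_num
  rw [hh2, map_mul (starRingEnd ℂ), D.GG_real hR0, hw] at hfe2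
  have h3 := hreal (1 / 2)
  rw [hhalf] at h3
  rw [h3] at hfe2
  have hG := D.GG_ne hR0 (par χ) (vk k)
  set G := GGn ((Ideal.absNorm (Ideal.span {D.rt} * Ideal.span {(q : 𝓞 K)}) *
      Ideal.absNorm (differentIdeal ℤ (𝓞 K)) : ℕ) : ℝ) (fun _ : InfinitePlace K => par χ)
      (fun w => -D.nu (vk k) w) (1 / 2) with hGdef
  have h4 : ((1 + c * q * b / 5 : ℝ) : ℂ) * (G * F (1 / 2)) = 0 := by
    push_cast at hfe2 ⊢
    linear_combination hfe2
  have h5 : ((1 + c * q * b / 5 : ℝ) : ℂ) ≠ 0 := by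
    have : 0 < 1 + c * q * b / 5 := by
      have : (0 : ℝ) < q := by exact_mod_cast hq0
      positivity
    exact_mod_cast this.ne'
  have h6 := (mul_eq_zero.1 h4).resolve_left h5
  exact (mul_eq_zero.1 h6).resolve_left hG

end QF

end Pool.Agent.U283.GF
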